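import Pool.Agent.Q274.DC.Stm
import Pool.Agent.Results.MP_696deb_nt.IndependenceOverDivisors

/-!
# Project DC: definitions and the reduction to the laws of the cubic twists
-/

set_option autoImplicit false

open scoped Classical

namespace Pool.Agent.Q274.DC

open Pool.Agent.Results.MP_696deb_nt.IndependenceOverDivisors

/-- The number `d_J = ∏ a_i ∏_{i ∈ J} a_i`, made cube-free. -/
def twist {n : ℕ} (a : Fin n → ℕ) (J : Finset (Fin n)) : ℕ := cubeFree ((∏ i, a i) * ∏ i ∈ J, a i)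

/-- A family of diagonal cubic hypersurfaces of dimension `2 t + 1 = 1, 3, 5`: the coefficients are the
monomials `c_i d_1 ^ f_i1 ⋯ d_n ^ f_in`. -/
structure Family (n : ℕ) where
  /-- the dimension is `2 t + 1` -/
  t : ℕ
  /-- the dimension is at most `5` -/
  ht : t ≤ 2
  /-- the constants -/
  c : Fin (2 * t + 3) → ℕ
  /-- the exponents -/
  f : Fin (2 * t + 3) → Fin n → ZMod 3

/-- The coefficients of the member at `d`. -/
def coeff {n : ℕ} (X : Family n) (d : Fin n → ℕ) : Fin (2 * X.t + 3) → ℕ :=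
  fun i => X.c i * form (X.f i) d

/-- The constant of the form `J`. -/
def base {n : ℕ} (X : Family n) (J : Finset (Fin (2 * X.t + 3))) : ℕ := twist X.c J

/-- The exponents of the form `J`. -/
def expo {n : ℕ} (X : Family n) (J : Finset (Fin (2 * X.t + 3))) : Fin n → ZMod 3 :=
  ∑ i, X.f i + ∑ i ∈ J, X.f i

/-- The forms `N d^e` and `N' d^e'` are equal or inverse to each other modulo cubes. -/
def Related {n : ℕ} (N : ℕ) (e : Fin n → ZMod 3) (N' : ℕ) (e' : Fin n → ZMod 3) : Prop :=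
  (e = e' ∧ N = N') ∨ (e = -e' ∧ ∃ b : ℕ, N' * N = b ^ 3)

/-- The twists in the middle cohomology of the members of finitely many families: a family and a set `J` of
`t` places. -/
def Twists {m n : ℕ} (X : Fin m → Family n) : Type :=
  {p : (k : Fin m) × Finset (Fin (2 * (X k).t + 3)) // p.2.card = (X p.1).t}

/-! ### cubes -/

/-- equal up to cubes -/
def CE (x y : ℕ) : Prop := ∃ u v : ℕ, u ≠ 0 ∧ v ≠ 0 ∧ x * u ^ 3 = y * v ^ 3

theorem CE.refl (x : ℕ) : CE x x := ⟨1, 1, one_ne_zero, one_ne_zero, rfl⟩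

theorem CE.symm {x y : ℕ} (h : CE x y) : CE y x := by
  obtain ⟨u, v, hu, hv, h⟩ := h
  exact ⟨v, u, hv, hu, h.symm⟩

theorem CE.trans {x y z : ℕ} (h : CE x y) (h' : CE y z) : CE x z := by
  obtain ⟨u, v, hu, hv, h⟩ := h
  obtain ⟨u', v', hu', hv', h'⟩ := h'
  refine ⟨u * u', v * v', mul_ne_zero hu hu', mul_ne_zero hv hv', ?_⟩
  calc x * (u * u') ^ 3 = (x * u ^ 3) * u' ^ 3 := by ring
    _ = (y * u' ^ 3) * v ^ 3 := by rw [h]; ring
    _ = z * (v * v') ^ 3 := by rw [h']; ring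

theorem CE.mul {x y x' y' : ℕ} (h : CE x y) (h' : CE x' y') : CE (x * x') (y * y') := by
  obtain ⟨u, v, hu, hv, h⟩ := h
  obtain ⟨u', v', hu', hv', h'⟩ := h'
  refine ⟨u * u', v * v', mul_ne_zero hu hu', mul_ne_zero hv hv', ?_⟩
  calc x * x' * (u * u') ^ 3 = (x * u ^ 3) * (x' * u' ^ 3) := by ring
    _ = y * y' * (v * v') ^ 3 := by rw [h, h']; ring

theorem CE.prod {ι : Type} (s : Finset ι) {x y : ι → ℕ} (h : ∀ i ∈ s, CE (x i) (y i)) :
    CE (∏ i ∈ s, x i) (∏ i ∈ s, y i) := by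
  induction s using Finset.induction_on with
  | empty => exact CE.refl _
  | insert i s hi ih =>
    rw [Finset.prod_insert hi, Finset.prod_insert hi]
    exact (h i (Finset.mem_insert_self i s)).mul (ih fun j hj => h j (Finset.mem_insert_of_mem hj))

theorem cubeFree_mul {n : ℕ} (hn : n ≠ 0) : ∃ b : ℕ, b ≠ 0 ∧ n = cubeFree n * b ^ 3 := by
  refine ⟨∏ p ∈ n.primeFactors, p ^ (n.factorization p / 3), ?_, Q283.ND.cf_mul hn⟩
  intro h
  have h1 := Q283.ND.cf_mul hn
  rw [h] at h1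
  simp at h1
  exact hn h1

theorem CE.cubeFree {n : ℕ} (hn : n ≠ 0) : CE n (cubeFree n) := by
  obtain ⟨b, hb, h⟩ := cubeFree_mul hn
  exact ⟨1, b, one_ne_zero, hb, by rw [one_pow, mul_one]; exact h⟩

theorem cubeFree_ne {n : ℕ} (hn : n ≠ 0) : cubeFree n ≠ 0 := by
  obtain ⟨b, hb, h⟩ := cubeFree_mul hn
  intro h0
  rw [h0, zero_mul] at h
  exact hn h

theorem cubeFree_eq {x y : ℕ} (hx : x ≠ 0) (hy : y ≠ 0) (h : CE x y) : cubeFree x = cubeFree y := by
  obtain ⟨u, v, hu, hv, h⟩ := ((CE.cubeFree hx).symm.trans h).trans (CE.cubeFree hy)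
  exact Q283.Q3N.cf_unique h (mul_ne_zero (cubeFree_ne hx) (pow_ne_zero 3 hu)) (Q283.ND.cf_free x)
    (Q283.ND.cf_free y)

/-- the forms are multiplicative up to cubes -/
theorem form_add {n : ℕ} (e e' : Fin n → ZMod 3) {d : Fin n → ℕ} (hd : ∀ i, d i ≠ 0) :
    CE (form (e + e') d) (form e d * form e' d) := by
  unfold form
  rw [← Finset.prod_mul_distrib]
  refine CE.prod _ fun i _ => ?_
  rw [Pi.add_apply, ← pow_add]
  refine ⟨d i ^ (((e i).val + (e' i).val) / 3), 1, pow_ne_zero _ (hd i), one_ne_zero, ?_⟩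
  rw [← pow_mul, ← pow_add, one_pow, mul_one, ZMod.val_add]
  congr 1
  omega

theorem form_zero {n : ℕ} (d : Fin n → ℕ) : form (0 : Fin n → ZMod 3) d = 1 := by
  unfold form
  exact Finset.prod_eq_one fun i _ => by simp

theorem form_ne {n : ℕ} (e : Fin n → ZMod 3) {d : Fin n → ℕ} (hd : ∀ i, d i ≠ 0) : form e d ≠ 0 :=
  Finset.prod_ne_zero_iff.2 fun i _ => pow_ne_zero _ (hd i)

theorem form_sum {n : ℕ} {ι : Type} (s : Finset ι) (f : ι → Fin n → ZMod 3) {d : Fin n → ℕ}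
    (hd : ∀ i, d i ≠ 0) : CE (form (∑ i ∈ s, f i) d) (∏ i ∈ s, form (f i) d) := by
  induction s using Finset.induction_on with
  | empty =>
    rw [Finset.sum_empty, Finset.prod_empty, form_zero]
    exact CE.refl _
  | insert i s hi ih =>
    rw [Finset.sum_insert hi, Finset.prod_insert hi]
    exact (form_add _ _ hd).trans ((CE.refl _).mul ih)

theorem twist_coeff {n : ℕ} (X : Family n) (hc : ∀ i, X.c i ≠ 0) (J : Finset (Fin (2 * X.t + 3)))
    {d : Fin n → ℕ} (hd : ∀ i, d i ≠ 0) :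
    twist (coeff X d) J = cubeFree (base X J * form (expo X J) d) := by
  have hC : (∏ i, X.c i) * ∏ i ∈ J, X.c i ≠ 0 :=
    mul_ne_zero (Finset.prod_ne_zero_iff.2 fun i _ => hc i) (Finset.prod_ne_zero_iff.2 fun i _ => hc i)
  have hco : ∀ i, coeff X d i ≠ 0 := fun i => mul_ne_zero (hc i) (form_ne _ hd)
  unfold twist
  apply cubeFree_eq
  · exact mul_ne_zero (Finset.prod_ne_zero_iff.2 fun i _ => hco i)
      (Finset.prod_ne_zero_iff.2 fun i _ => hco i)
  · exact mul_ne_zero (cubeFree_ne hC) (form_ne _ hd)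
  · have h1 : (∏ i, coeff X d i) * ∏ i ∈ J, coeff X d i =
        ((∏ i, X.c i) * ∏ i ∈ J, X.c i) * ((∏ i, form (X.f i) d) * ∏ i ∈ J, form (X.f i) d) := by
      unfold coeff
      rw [Finset.prod_mul_distrib, Finset.prod_mul_distrib]
      ring
    rw [h1]
    refine (CE.cubeFree hC).mul ?_
    exact ((form_add _ _ hd).trans ((form_sum _ _ hd).mul (form_sum _ _ hd))).symm

theorem coeff_ne {n : ℕ} (X : Family n) (hc : ∀ i, X.c i ≠ 0) {d : Fin n → ℕ} (hd : ∀ i, d i ≠ 0)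
    (i : Fin (2 * X.t + 3)) : coeff X d i ≠ 0 := mul_ne_zero (hc i) (form_ne _ hd)

end Pool.Agent.Q274.DC
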