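import Pool.Agent.Q274.DC.Law

/-!
# Project DC: the `L`-function of the middle cohomology
-/

set_option autoImplicit false

open scoped Classical

namespace Pool.Agent.Q274.DC

open Filter
open Pool.Agent.Results.MP_696deb_nt.IndependenceOverDivisors
open Pool.Agent.Y703.CT (WD EQ IsL Cls)
open Pool.Agent.W97.MT (affCount ap)

/-- The Euler factor at `p` of the `L`-function of `y² + D y = x³`, `D` cube-free: the reduction is
additive for `p ∣ 3 D` and good otherwise. -/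
noncomputable def factor (D : ℕ) (p : ℕ) (s : ℂ) : ℂ :=
  if p ∣ 3 * D then 1 else
    (1 - ((p : ℂ) - (Nat.card {P : ZMod p × ZMod p // P.2 ^ 2 + (D : ZMod p) * P.2 = P.1 ^ 3} : ℂ)) *
      (p : ℂ) ^ (-s) + (p : ℂ) ^ (1 - 2 * s))⁻¹

/-- `L` is entire and it is the `L`-function of the middle cohomology `H^(2t+1)` of
`∑ a_i x_i³ = 0` (`2 t + 3` variables). -/
def IsLFunction {t : ℕ} (a : Fin (2 * t + 3) → ℕ) (L : ℂ → ℂ) : Prop :=
  Differentiable ℂ L ∧ ∀ s : ℂ, (t : ℝ) + 3 / 2 < s.re →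
    HasProd (fun p : Nat.Primes => ∏ J ∈ Finset.powersetCard t (Finset.univ : Finset (Fin (2 * t + 3))),
      factor (twist a J) p (s - t)) (L s)

theorem cls_iff {N : ℕ} : IsBase N ↔ Cls N := base_iff N

theorem affCount_WD {p : ℕ} (D : ℕ) : affCount (WD (D : ℤ)) p =
    Nat.card {P : ZMod p × ZMod p // P.2 ^ 2 + (D : ZMod p) * P.2 = P.1 ^ 3} := by
  unfold affCount
  apply congrArg Nat.card
  apply congrArg
  funext P
  rw [Pool.Agent.Y703.CX.eqn_iff]
  push_cast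
  rfl

theorem factor_eq {D p : ℕ} (hp : p.Prime) (s : ℂ) :
    (1 - (ap (WD (D : ℤ)) p : ℂ) * ((p : ℕ) : ℂ) ^ (-s) +
      (if ((p : ℕ) : ℤ) ∣ (WD (D : ℤ)).Δ then 0 else ((p : ℕ) : ℂ) ^ (1 - 2 * s)))⁻¹ = factor D p s := by
  have hpi : Prime (p : ℤ) := Nat.prime_iff_prime_int.1 hp
  have hΔ : ((p : ℤ) ∣ (WD (D : ℤ)).Δ) ↔ p ∣ 3 * D := by
    rw [Pool.Agent.Y703.CX.WD_disc]
    constructor
    · intro h
      have h1 : (p : ℤ) ∣ (3 * D : ℤ) ^ 4 := by
        have h2 : (3 * (D : ℤ)) ^ 4 = (-27 * (D : ℤ) ^ 4) * (-3) := by ring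
        rw [h2]
        exact h.mul_right _
      have h3 := hpi.dvd_of_dvd_pow h1
      exact_mod_cast h3
    · intro h
      have h1 : (p : ℤ) ∣ 3 * (D : ℤ) := by exact_mod_cast h
      rcases hpi.dvd_or_dvd h1 with h2 | h2
      · exact (h2.trans ⟨-9, by norm_num⟩).mul_right _
      · exact (h2.trans (dvd_pow_self _ four_ne_zero)).mul_left _
  unfold factor
  by_cases h : p ∣ 3 * D
  · rw [if_pos h, if_pos (hΔ.2 h), Pool.Agent.Y703.CX.ap_bad hp (by exact_mod_cast h)]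
    simp
  · rw [if_neg h, if_neg (fun h' => h (hΔ.1 h'))]
    unfold ap
    rw [affCount_WD]
    push_cast
    rfl

theorem lfun_one {D : ℕ} (hD : IsBase D) : ∃ f : ℂ → ℂ, Differentiable ℂ f ∧
    (∀ s : ℂ, 3 / 2 < s.re → HasProd (fun p : Nat.Primes => factor D p s) (f s)) ∧
    (Good D → f 1 ≠ 0) := by
  have hC := cls_iff.1 hD
  obtain ⟨-, f, hf, u, hu, -, h1, -⟩ := Pool.Agent.Y703.CT.fin_all hC
  refine ⟨f, hf.1, fun s hs => ?_, fun hG => ?_⟩
  · refine (hf.2 s hs).congr_fun ?_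
    intro p
    exact (factor_eq p.2 s).symm
  · have hT := (good_iff D).1 hG
    exact Pool.Agent.Y703.CX.val_ne hC hT.1 (h1.2 hT).1 hu

theorem lfun_X {t : ℕ} (a : Fin (2 * t + 3) → ℕ)
    (ha : ∀ J : Finset (Fin (2 * t + 3)), J.card = t → IsBase (twist a J)) :
    ∃ L : ℂ → ℂ, IsLFunction a L ∧
      ((∀ J : Finset (Fin (2 * t + 3)), J.card = t → Good (twist a J)) → L (t + 1) ≠ 0) := by
  have h : ∀ J : Finset (Fin (2 * t + 3)), ∃ f : ℂ → ℂ, J.card = t → Differentiable ℂ f ∧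
      (∀ s : ℂ, 3 / 2 < s.re → HasProd (fun p : Nat.Primes => factor (twist a J) p s) (f s)) ∧
      (Good (twist a J) → f 1 ≠ 0) := by
    intro J
    by_cases hJ : J.card = t
    · obtain ⟨f, hf⟩ := lfun_one (ha J hJ)
      exact ⟨f, fun _ => hf⟩
    · exact ⟨0, fun h => absurd h hJ⟩
  choose f hf using h
  refine ⟨fun s => ∏ J ∈ Finset.powersetCard t Finset.univ, f J (s - t), ⟨?_, fun s hs => ?_⟩, ?_⟩
  · refine Differentiable.fun_finsetProd fun J hJ => ?_
    have hJ' := (Finset.mem_powersetCard.1 hJ).2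
    exact (hf J hJ').1.comp (differentiable_id.sub_const _)
  · refine hasProd_prod fun J hJ => ?_
    have hJ' := (Finset.mem_powersetCard.1 hJ).2
    refine (hf J hJ').2.1 (s - t) ?_
    rw [Complex.sub_re, Complex.natCast_re]
    linarith
  · intro hG
    rw [Finset.prod_ne_zero_iff]
    intro J hJ
    have hJ' := (Finset.mem_powersetCard.1 hJ).2
    have h1 := (hf J hJ').2.2 (hG J hJ')
    have h2 : ((t : ℂ) + 1 - t) = 1 := by ring
    rw [h2]
    exact h1

/-- the `L`-function is determined by the Euler product -/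
theorem lfun_unique {t : ℕ} {a : Fin (2 * t + 3) → ℕ} {L L' : ℂ → ℂ} (h : IsLFunction a L)
    (h' : IsLFunction a L') : L = L' := by
  have h1 : AnalyticOnNhd ℂ L Set.univ := fun z _ => h.1.analyticAt z
  have h2 : AnalyticOnNhd ℂ L' Set.univ := fun z _ => h'.1.analyticAt z
  refine AnalyticOnNhd.eq_of_eventuallyEq h1 h2 (z₀ := ((t : ℂ) + 2)) ?_
  have h3 : {s : ℂ | (t : ℝ) + 3 / 2 < s.re} ∈ nhds ((t : ℂ) + 2) := by
    refine (isOpen_lt continuous_const Complex.continuous_re).mem_nhds ?_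
    show (t : ℝ) + 3 / 2 < ((t : ℂ) + 2).re
    simp
    norm_num
  filter_upwards [h3] with s hs
  exact (h.2 s hs).unique (h'.2 s hs)

end Pool.Agent.Q274.DC
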