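import Pool.Agent.Q274.DC.Fam
import Pool.Agent.Q274.DC.Lfun
import Pool.Agent.Q283.MC.Tf
import Pool.Agent.Q283.MC.Ind

/-!
# Project DC: diagonal cubic hypersurfaces over number fields generated by cube roots, definitions
-/

set_option autoImplicit false

open scoped Classical

namespace Pool.Agent.Q274.DC.F

open Filter NumberField IsDedekindDomain
open Pool.Agent.Q274.DC
open Pool.Agent.Results.MP_696deb_nt.IndependenceOverDivisors

/-- The cube-free part of `∏ a_i ∏_{i ∈ J} a_i ∏ l_j ^ e_j`. -/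
def twistL {n k : ℕ} (a : Fin n → ℕ) (l : Fin k → ℕ) (J : Finset (Fin n)) (e : Fin k → ZMod 3) : ℕ :=
  cubeFree (((∏ i, a i) * ∏ i ∈ J, a i) * ∏ j, l j ^ (e j).val)

/-- A family of diagonal cubic hypersurfaces of dimension `2 t + 1 = 1, 3, 5` with coefficients the monomials
`c_i d_1 ^ f_i1 ⋯ d_n ^ f_in`, and of number fields generated by cube roots of the monomials
`b_j d_1 ^ g_j1 ⋯ d_n ^ g_jn`, `j = 1, ..., k`. -/
structure Family (n : ℕ) where
  /-- the dimension is `2 t + 1` -/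
  t : ℕ
  /-- the dimension is at most `5` -/
  ht : t ≤ 2
  /-- the constants of the coefficients -/
  c : Fin (2 * t + 3) → ℕ
  /-- the exponents of the coefficients -/
  f : Fin (2 * t + 3) → Fin n → ZMod 3
  /-- the number of cube roots -/
  k : ℕ
  /-- the constants of the radicands -/
  b : Fin k → ℕ
  /-- the exponents of the radicands -/
  g : Fin k → Fin n → ZMod 3

/-- The coefficients of the member at `d`. -/
def Family.coeff {n : ℕ} (X : Family n) (d : Fin n → ℕ) : Fin (2 * X.t + 3) → ℕ :=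
  fun i => X.c i * form (X.f i) d

/-- The radicands at `d`. -/
def Family.rad {n : ℕ} (X : Family n) (d : Fin n → ℕ) : Fin X.k → ℕ :=
  fun j => X.b j * form (X.g j) d

/-- The constant of the twist `(J, e)`. -/
def Family.base {n : ℕ} (X : Family n) (J : Finset (Fin (2 * X.t + 3))) (e : Fin X.k → ZMod 3) : ℕ :=
  twistL X.c X.b J e

/-- The exponents of the twist `(J, e)`. -/
def Family.expo {n : ℕ} (X : Family n) (J : Finset (Fin (2 * X.t + 3))) (e : Fin X.k → ZMod 3) :
    Fin n → ZMod 3 := ∑ i, X.f i + ∑ i ∈ J, X.f i + ∑ j, e j • X.g j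

/-- The twists that occur: a family, a set `J` of `t` places, exponents `e`. -/
def Twists {m n : ℕ} (X : Fin m → Family n) : Type :=
  {p : (i : Fin m) × (Finset (Fin (2 * (X i).t + 3)) × (Fin (X i).k → ZMod 3)) //
    p.2.1.card = (X p.1).t}

theorem twistL_ne {n k : ℕ} {a : Fin n → ℕ} {l : Fin k → ℕ} (ha : ∀ i, a i ≠ 0) (hl : ∀ j, l j ≠ 0)
    (J : Finset (Fin n)) (e : Fin k → ZMod 3) :
    ((∏ i, a i) * ∏ i ∈ J, a i) * ∏ j, l j ^ (e j).val ≠ 0 :=
  mul_ne_zero (mul_ne_zero (Finset.prod_ne_zero_iff.2 fun i _ => ha i)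
    (Finset.prod_ne_zero_iff.2 fun i _ => ha i))
    (Finset.prod_ne_zero_iff.2 fun j _ => pow_ne_zero _ (hl j))

theorem CE.pow {x y : ℕ} (h : CE x y) (n : ℕ) : CE (x ^ n) (y ^ n) := by
  obtain ⟨u, v, hu, hv, h⟩ := h
  refine ⟨u ^ n, v ^ n, pow_ne_zero n hu, pow_ne_zero n hv, ?_⟩
  rw [← pow_mul, mul_comm n 3, pow_mul, ← mul_pow, h, mul_pow, ← pow_mul, ← pow_mul, mul_comm 3 n]

theorem form_smul {n : ℕ} (c : ZMod 3) (e : Fin n → ZMod 3) {d : Fin n → ℕ} (hd : ∀ i, d i ≠ 0) :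
    CE (form (c • e) d) (form e d ^ c.val) := by
  unfold form
  rw [← Finset.prod_pow]
  refine CE.prod _ fun i _ => ?_
  rw [Pi.smul_apply, smul_eq_mul, ← pow_mul, ZMod.val_mul]
  refine ⟨d i ^ ((c.val * (e i).val) / 3), 1, pow_ne_zero _ (hd i), one_ne_zero, ?_⟩
  rw [← pow_mul, ← pow_add, one_pow, mul_one]
  congr 1
  rw [mul_comm (e i).val c.val]
  omega

theorem twistL_coeff {n : ℕ} (X : Family n) (hc : ∀ i, X.c i ≠ 0) (hb : ∀ j, X.b j ≠ 0)
    (J : Finset (Fin (2 * X.t + 3))) (e : Fin X.k → ZMod 3) {d : Fin n → ℕ} (hd : ∀ i, d i ≠ 0) :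
    twistL (X.coeff d) (X.rad d) J e = cubeFree (X.base J e * form (X.expo J e) d) := by
  have hC := twistL_ne hc hb J e
  have hco : ∀ i, X.coeff d i ≠ 0 := fun i => mul_ne_zero (hc i) (form_ne _ hd)
  have hra : ∀ j, X.rad d j ≠ 0 := fun j => mul_ne_zero (hb j) (form_ne _ hd)
  unfold twistL
  apply cubeFree_eq
  · exact twistL_ne hco hra J e
  · exact mul_ne_zero (cubeFree_ne hC) (form_ne _ hd)
  · have h1 : ((∏ i, X.coeff d i) * ∏ i ∈ J, X.coeff d i) * ∏ j, X.rad d j ^ (e j).val =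
        (((∏ i, X.c i) * ∏ i ∈ J, X.c i) * ∏ j, X.b j ^ (e j).val) *
          (((∏ i, form (X.f i) d) * ∏ i ∈ J, form (X.f i) d) * ∏ j, form (X.g j) d ^ (e j).val) := by
      unfold Family.coeff Family.rad
      simp only [Finset.prod_mul_distrib, mul_pow]
      ring
    rw [h1]
    refine (CE.cubeFree hC).mul ?_
    refine (((form_add _ _ hd).trans ((form_add _ _ hd).trans
      ((form_sum _ _ hd).mul (form_sum _ _ hd)) |>.mul ((form_sum _ _ hd).trans
        (CE.prod _ fun j _ => form_smul (e j) (X.g j) hd))))).symm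

section laws

variable {m n : ℕ}

noncomputable instance (X : Fin m → Family n) : Fintype (Twists X) := by
  unfold Twists
  infer_instance

/-- the constant of a twist -/
def bas (X : Fin m → Family n) (p : Twists X) : ℕ := (X p.1.1).base p.1.2.1 p.1.2.2

/-- the exponents of a twist -/
def exf (X : Fin m → Family n) (p : Twists X) : Fin n → ZMod 3 := (X p.1.1).expo p.1.2.1 p.1.2.2

/-- the cube-free number of the twist at `d` -/
def val (X : Fin m → Family n) (d : Fin n → ℕ) (p : Twists X) : ℕ :=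
  twistL ((X p.1.1).coeff d) ((X p.1.1).rad d) p.1.2.1 p.1.2.2

/-- `ρ` is a system of representatives of the twists up to inversion -/
def Represents {M : ℕ} (X : Fin m → Family n) (ρ : Fin M → Twists X) : Prop :=
  (∀ j l, j ≠ l → ¬ Related (bas X (ρ l)) (exf X (ρ l)) (bas X (ρ j)) (exf X (ρ j))) ∧
    ∀ p, ∃ j, Related (bas X p) (exf X p) (bas X (ρ j)) (exf X (ρ j))

variable (K : Type) [Field K] [NumberField K] [IsCyclotomicExtension {3} ℚ K] (X : Fin m → Family n)

theorem val_eq (hc : ∀ k i, (X k).c i ≠ 0) (hb : ∀ k j, (X k).b j ≠ 0) {d : Fin n → ℕ}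
    (hd : ∀ i, d i ≠ 0) (p : Twists X) :
    val X d p = cubeFree (bas X p * form (exf X p) d) := twistL_coeff _ (hc _) (hb _) _ _ hd

theorem val_base (hc : ∀ k i, (X k).c i ≠ 0) (hb : ∀ k j, (X k).b j ≠ 0)
    (hB : ∀ p, IsBase (bas X p)) {a d : Fin n → ℕ} {D : ℕ}
    (ha : ∀ p : Twists X, bas X p * form (exf X p) a % 9 ≠ 1 ∧ bas X p * form (exf X p) a % 9 ≠ 8)
    (hd : d ∈ tuples a D) (p : Twists X) : IsBase (val X d p) := by
  rw [val_eq X hc hb (tuple_ne hd)]
  exact (base_iff _).2 (cls_of ((base_iff _).1 (hB p)) (ha p).1 (ha p).2 hd)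

theorem sel_rel (hc : ∀ k i, (X k).c i ≠ 0) (hb : ∀ k j, (X k).b j ≠ 0)
    (hB : ∀ p, IsBase (bas X p)) {a d : Fin n → ℕ} {D : ℕ}
    (ha : ∀ p : Twists X, bas X p * form (exf X p) a % 9 ≠ 1 ∧ bas X p * form (exf X p) a % 9 ≠ 8)
    (hd : d ∈ tuples a D) {p p' : Twists X}
    (h : Related (bas X p) (exf X p) (bas X p') (exf X p')) :
    (Sel K (val X d p)).ncard = (Sel K (val X d p')).ncard := by
  have hd0 := tuple_ne hd
  rcases h with ⟨h1, h2⟩ | ⟨h1, b, h2⟩
  · rw [val_eq X hc hb hd0, val_eq X hc hb hd0, h1, h2]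
  · refine sel_inv K (val_base X hc hb hB ha hd p) (val_base X hc hb hB ha hd p') ?_
    rw [val_eq X hc hb hd0, val_eq X hc hb hd0]
    have hb0 : ∀ p, bas X p ≠ 0 := fun p => (hB p).1
    have hx : ∀ p, bas X p * form (exf X p) d ≠ 0 := fun p => mul_ne_zero (hb0 p) (form_ne _ hd0)
    refine ((CE.cubeFree (hx p)).symm.mul (CE.cubeFree (hx p')).symm).trans ?_
    have h3 : CE (form (exf X p) d * form (exf X p') d) 1 := by
      have h4 := (form_add (exf X p) (exf X p') hd0).symm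
      rw [h1, neg_add_cancel, form_zero] at h4
      rw [h1]
      exact h4
    have h5 : CE (bas X p * bas X p') 1 := by
      have hb : b ≠ 0 := by
        rintro rfl
        rw [zero_pow three_ne_zero] at h2
        exact mul_ne_zero (hb0 p') (hb0 p) h2
      exact ⟨1, b, one_ne_zero, hb, by rw [one_pow, mul_one, one_mul, mul_comm]; exact h2⟩
    have h6 := h5.mul h3
    rw [mul_one] at h6
    have h7 : bas X p * form (exf X p) d * (bas X p' * form (exf X p') d) =
        bas X p * bas X p' * (form (exf X p) d * form (exf X p') d) := by ring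
    rw [h7]
    exact h6

end laws

theorem law_X (K : Type) [Field K] [NumberField K] [IsCyclotomicExtension {3} ℚ K] :
    ∃ S : ℕ → Prop, Tendsto (fun x : ℕ => (count S x : ℝ) / x) atTop (nhds 1) ∧
      Tendsto (fun x : ℕ => (count (fun D => Split D ∧ S D) x : ℝ) / count Split x) atTop (nhds 1) ∧
      ∀ (m n M : ℕ) (X : Fin m → Family n) (ρ : Fin M → Twists X), (∀ k i, (X k).c i ≠ 0) →
      (∀ k j, (X k).b j ≠ 0) →
      (∀ p, IsBase (bas X p)) → (∀ p, exf X p ≠ 0) → Represents X ρ →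
      ∀ ε : ℝ, 0 < ε → ∃ D₀ : ℕ, ∀ D : ℕ, D₀ ≤ D → S D → ∀ a : Fin n → ℕ,
        (∀ p : Twists X, bas X p * form (exf X p) a % 9 ≠ 1 ∧ bas X p * form (exf X p) a % 9 ≠ 8) →
        (tuples a D).Nonempty →
        (∀ T : Set (Fin M → ℕ), |part a D (fun d => ∃ r ∈ T, ∀ (p : Twists X) (j : Fin M),
            Related (bas X p) (exf X p) (bas X (ρ j)) (exf X (ρ j)) →
              (Sel K (val X d p)).ncard = 3 ^ (2 * r j + 1)) - ∑' r : T, ∏ j, law (r.1 j)| ≤ ε) ∧
        |part a D (fun d => ∀ p : Twists X, Good (val X d p)) - c ^ M| ≤ ε ∧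
        ∀ p : Twists X, (∑ d ∈ tuples a D, (rank (val X d p) : ℝ)) / (tuples a D).card < 0.92 := by
  obtain ⟨S, hS1, hS2, hmain⟩ := (result K).2.2.2.2.2.1
  refine ⟨S, hS1, hS2, fun m n M X ρ hc hb hB hE hR ε hε => ?_⟩
  have hU : Unrelated (fun j => bas X (ρ j)) (fun j => exf X (ρ j)) := by
    refine ⟨fun j => hE _, fun j l hjl => ?_⟩
    have h := hR.1 j l hjl
    unfold Related at h
    push Not at h
    refine ⟨fun h1 => h.1 h1.1 h1.2, ?_⟩
    rintro ⟨h1, b, h2⟩
    exact h.2 h1 b h2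
  obtain ⟨D₁, h1⟩ := hmain M n _ _ (fun j => hB (ρ j)) hU ε hε
  have hs : ∀ p : Twists X, ∃ D₂ : ℕ, ∀ D : ℕ, D₂ ≤ D → S D → ∀ a : Fin n → ℕ,
      (bas X p * form (exf X p) a % 9 ≠ 1 ∧ bas X p * form (exf X p) a % 9 ≠ 8) →
        (tuples a D).Nonempty → mean (bas X p) (exf X p) a D (fun n => (rank n : ℝ)) < 0.92 := by
    intro p
    have hU1 : Unrelated (fun _ : Fin 1 => bas X p) (fun _ : Fin 1 => exf X p) :=
      ⟨fun _ => hE p, fun j l hjl => absurd (Subsingleton.elim j l) hjl⟩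
    obtain ⟨D₂, h2⟩ := hmain 1 n _ _ (fun _ => hB p) hU1 1 one_pos
    refine ⟨D₂, fun D hD hSD a ha hne => ?_⟩
    exact ((h2 D hD hSD a (fun _ => ha) hne).2.2.2.2.2 0).2
  choose D₂ h2 using hs
  refine ⟨max D₁ (Finset.univ.sup D₂), fun D hD hSD a ha hne => ⟨fun T => ?_, ?_, fun p => ?_⟩⟩
  · have h3 := (h1 D ((le_max_left _ _).trans hD) hSD a (fun j => ha (ρ j)) hne).1 T
    rw [part_eq (N := fun j => bas X (ρ j)) (e := fun j => exf X (ρ j))
      (Q := fun v => ∃ r ∈ T, ∀ j, (Sel K (v j)).ncard = 3 ^ (2 * r j + 1))]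
    · exact h3
    · intro d hd
      have hv : ∀ j, values (fun j => bas X (ρ j)) (fun j => exf X (ρ j)) d j = val X d (ρ j) :=
        fun j => (val_eq X hc hb (tuple_ne hd) (ρ j)).symm
      constructor
      · rintro ⟨r, hr, h⟩
        refine ⟨r, hr, fun j => ?_⟩
        rw [hv]
        exact h (ρ j) j (Related.refl _ _)
      · rintro ⟨r, hr, h⟩
        refine ⟨r, hr, fun p j hpj => ?_⟩
        rw [sel_rel K X hc hb hB ha hd hpj, ← hv]
        exact h j
  · have h3 := (h1 D ((le_max_left _ _).trans hD) hSD a (fun j => ha (ρ j)) hne).2.1 Finset.univ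
    rw [Finset.card_univ, Fintype.card_fin, Nat.sub_self, pow_zero, mul_one] at h3
    rw [part_eq (N := fun j => bas X (ρ j)) (e := fun j => exf X (ρ j))
      (Q := fun v => ∀ j, (Good (v j) ↔ j ∈ (Finset.univ : Finset (Fin M))))]
    · exact h3
    · intro d hd
      have hv : ∀ j, values (fun j => bas X (ρ j)) (fun j => exf X (ρ j)) d j = val X d (ρ j) :=
        fun j => (val_eq X hc hb (tuple_ne hd) (ρ j)).symm
      constructor
      · intro h j
        rw [hv]
        exact ⟨fun _ => Finset.mem_univ j, fun _ => h (ρ j)⟩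
      · intro h p
        obtain ⟨j, hj⟩ := hR.2 p
        have h4 := (h j).2 (Finset.mem_univ j)
        rw [hv] at h4
        rw [good_sel K (val_base X hc hb hB ha hd p), sel_rel K X hc hb hB ha hd hj,
          ← good_sel K (val_base X hc hb hB ha hd (ρ j))]
        exact h4
  · have h4 : D₂ p ≤ D := (Finset.le_sup (Finset.mem_univ p)).trans ((le_max_right _ _).trans hD)
    have h5 := h2 p D h4 hSD a (ha p) hne
    unfold mean at h5
    refine lt_of_eq_of_lt ?_ h5
    congr 1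
    exact Finset.sum_congr rfl fun d hd => by rw [val_eq X hc hb (tuple_ne hd)]

end Pool.Agent.Q274.DC.F
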