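import Pool.Agent.Q274.DC.FDef

/-!
# Project DC: diagonal cubic hypersurfaces over number fields generated by cube roots
-/

set_option autoImplicit false

open scoped Classical

namespace Pool.Agent.Q274.DC.F

open Filter NumberField IsDedekindDomain
open Pool.Agent.Q274.DC
open Pool.Agent.Results.MP_696deb_nt.IndependenceOverDivisors

/-- No product `∏ l_j ^ e_j` with exponents `0, 1, 2`, not all zero, is a cube. -/
def Independent {k : ℕ} (l : Fin k → ℕ) : Prop :=
  ∀ e : Fin k → ZMod 3, e ≠ 0 → ∀ c : ℕ, ∏ j, l j ^ (e j).val ≠ c ^ 3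

/-- The number field `F` is generated by cube roots of the `l_j` and the cube roots of unity in `F`. -/
def IsRadical {k : ℕ} (l : Fin k → ℕ) (F : Type) [Field F] [NumberField F] : Prop :=
  ∃ θ : Fin k → F, (∀ j, θ j ^ 3 = (l j : F)) ∧
    IntermediateField.adjoin ℚ ({x : F | x ^ 3 = 1} ∪ Set.range θ) = ⊤

/-- The Euler factor at the place `v` of `y² + N y = x³` over `F`; it is replaced by `1` if `v` divides
`M`. -/
noncomputable def factorF {F : Type} [Field F] [NumberField F] (M N : ℕ) (s : ℂ)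
    (v : HeightOneSpectrum (𝓞 F)) : ℂ :=
  if ((M : ℕ) : 𝓞 F) ∈ v.asIdeal then 1 else
    (1 - (((Ideal.absNorm v.asIdeal : ℕ) : ℂ) - (Nat.card {x : (𝓞 F ⧸ v.asIdeal) × (𝓞 F ⧸ v.asIdeal) //
        x.2 ^ 2 + (N : 𝓞 F ⧸ v.asIdeal) * x.2 = x.1 ^ 3} : ℂ)) *
      ((Ideal.absNorm v.asIdeal : ℕ) : ℂ) ^ (-s) +
      ((Ideal.absNorm v.asIdeal : ℕ) : ℂ) ^ (1 - 2 * s))⁻¹

/-- `L` is entire and it is the `L`-function over `F` of the middle cohomology of `∑ a_i x_i³ = 0`
(the Euler factors of `E_{d_J}` at the places dividing `6 d_J ∏ l_j` are omitted; they are not zero at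
the centre). -/
def IsLFunctionOver {t k : ℕ} (a : Fin (2 * t + 3) → ℕ) (l : Fin k → ℕ) (F : Type) [Field F]
    [NumberField F] (L : ℂ → ℂ) : Prop :=
  Differentiable ℂ L ∧ ∀ s : ℂ, (t : ℝ) + 3 / 2 < s.re →
    HasProd (fun v : HeightOneSpectrum (𝓞 F) =>
      ∏ J ∈ Finset.powersetCard t (Finset.univ : Finset (Fin (2 * t + 3))),
        factorF (6 * twist a J * ∏ j, l j) (twist a J) (s - t) v) (L s)

/-- the rank over `F` of the intermediate Jacobian, the product of the curves `E_{d_J}` up to isogeny -/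
noncomputable def rankOver {t : ℕ} (a : Fin (2 * t + 3) → ℕ) (F : Type) [Field F]
    [NumberField F] : ℕ :=
  ∑ J ∈ Finset.powersetCard t (Finset.univ : Finset (Fin (2 * t + 3))),
    Module.finrank ℤ ((curve ((twist a J : ℕ) : ℚ)).baseChange F).toAffine.Point

/-- the conjecture for `∑ a_i x_i³ = 0` over `F`, with both sides equal to `0`; all the groups
`E_{d_J}(F)` are finite -/
def FormulaOver {t k : ℕ} (a : Fin (2 * t + 3) → ℕ) (l : Fin k → ℕ) (F : Type) [Field F]
    [NumberField F] : Prop :=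
  (∃ L : ℂ → ℂ, IsLFunctionOver a l F L ∧
    analyticOrderAt L ((t : ℂ) + 1) = (rankOver a F : ℕ∞) ∧ rankOver a F = 0) ∧
  ∀ J : Finset (Fin (2 * t + 3)), J.card = t →
    Finite ((curve ((twist a J : ℕ) : ℚ)).baseChange F).toAffine.Point

/-- all the twists are good -/
def GoodF {t k : ℕ} (a : Fin (2 * t + 3) → ℕ) (l : Fin k → ℕ) : Prop :=
  ∀ (J : Finset (Fin (2 * t + 3))) (e : Fin k → ZMod 3), J.card = t → Good (twistL a l J e)

theorem EQ_curve (N : ℕ) : Pool.Agent.Y703.CT.EQ (Pool.Agent.Y703.CT.WD ((N : ℕ) : ℤ)) =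
    curve ((N : ℕ) : ℚ) := by
  unfold Pool.Agent.Y703.CT.EQ Pool.Agent.Y703.CT.WD curve WeierstrassCurve.map
  simp

theorem eF_factor {F : Type} [Field F] [NumberField F] (M N : ℕ) (s : ℂ)
    (v : HeightOneSpectrum (𝓞 F)) : Q283.MC.eF M N s v = factorF M N s v := by
  unfold Q283.MC.eF factorF Q283.MC.aF
  push_cast
  rfl

theorem over_good {t k : ℕ} {a : Fin (2 * t + 3) → ℕ} {l : Fin k → ℕ} (ha : ∀ i, a i ≠ 0)
    (hl : ∀ j, l j ≠ 0)
    (hB : ∀ (J : Finset (Fin (2 * t + 3))) (e : Fin k → ZMod 3), J.card = t → IsBase (twistL a l J e))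
    (hG : GoodF a l) (hI : Independent l) {F : Type} [Field F] [NumberField F]
    (hF : IsRadical l F) : FormulaOver a l F := by
  obtain ⟨θ, hθ, hgen⟩ := hF
  obtain ⟨r, hr⟩ := Q283.MC.rd_of hθ hI hgen
  have key : ∀ J : Finset (Fin (2 * t + 3)), J.card = t → Q283.MC.RankZero (twist a J) l F := by
    intro J hJ
    have hn : (∏ i, a i) * ∏ i ∈ J, a i ≠ 0 :=
      mul_ne_zero (Finset.prod_ne_zero_iff.2 fun i _ => ha i)
        (Finset.prod_ne_zero_iff.2 fun i _ => ha i)
    have hN : twist a J ≠ 0 := cubeFree_ne hn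
    have hle : ∀ e : Fin k → ZMod 3, ∏ j, l j ^ (e j).val ≠ 0 := fun e =>
      Finset.prod_ne_zero_iff.2 fun j _ => pow_ne_zero _ (hl j)
    have h1 : ∀ e : Fin k → ZMod 3, ∃ c : ℕ,
        Q283.MC.tw (twist a J) l e = twistL a l J e * c ^ 3 := by
      intro e
      have h2 : twistL a l J e = cubeFree (Q283.MC.tw (twist a J) l e) := by
        unfold twistL Q283.MC.tw
        apply cubeFree_eq (mul_ne_zero hn (hle e)) (mul_ne_zero hN (hle e))
        exact (CE.cubeFree hn).mul (CE.refl _)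
      obtain ⟨b, -, h3⟩ := cubeFree_mul (n := Q283.MC.tw (twist a J) l e)
        (mul_ne_zero hN (hle e))
      exact ⟨b, by rw [h2]; exact h3⟩
    choose c hc using h1
    refine Q283.MC.tf hr hN hl (D := fun e => twistL a l J e) (c := c) hc
      (fun e => (base_iff _).1 (hB J e hJ)) fun e => ?_
    exact (Q283.Q3N.triv_iff ((base_iff _).1 (hB J e hJ))).1 ((good_iff _).1 (hG J e hJ))
  have hfin : ∀ J : Finset (Fin (2 * t + 3)), J.card = t →
      Finite ((curve ((twist a J : ℕ) : ℚ)).baseChange F).toAffine.Point := by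
    intro J hJ
    have h := (key J hJ).1
    rw [EQ_curve] at h
    exact h
  have hL : ∀ J : Finset (Fin (2 * t + 3)), ∃ f : ℂ → ℂ, J.card = t → Differentiable ℂ f ∧
      (∀ s : ℂ, 3 / 2 < s.re → HasProd (fun v : HeightOneSpectrum (𝓞 F) =>
        factorF (6 * twist a J * ∏ j, l j) (twist a J) s v) (f s)) ∧ f 1 ≠ 0 := by
    intro J
    by_cases hJ : J.card = t
    · obtain ⟨L, h1, h2, h3⟩ := (key J hJ).2
      refine ⟨L, fun _ => ⟨h1, fun s hs => ?_, h3⟩⟩
      refine (h2 s hs).congr_fun fun v => ?_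
      exact (eF_factor _ _ s v).symm
    · exact ⟨0, fun h => absurd h hJ⟩
  choose f hf using hL
  have hrank : rankOver a F = 0 := by
    refine Finset.sum_eq_zero fun J hJ => ?_
    haveI := hfin J (Finset.mem_powersetCard.1 hJ).2
    exact Pool.Agent.Y687.finrank_zero_of_finite inferInstance
  refine ⟨⟨fun s => ∏ J ∈ Finset.powersetCard t Finset.univ, f J (s - t), ⟨?_, fun s hs => ?_⟩, ?_,
    hrank⟩, hfin⟩
  · refine Differentiable.fun_finsetProd fun J hJ => ?_
    have hJ' := (Finset.mem_powersetCard.1 hJ).2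
    exact (hf J hJ').1.comp (differentiable_id.sub_const _)
  · refine hasProd_prod fun J hJ => ?_
    have hJ' := (Finset.mem_powersetCard.1 hJ).2
    refine (hf J hJ').2.1 (s - t) ?_
    rw [Complex.sub_re, Complex.natCast_re]
    linarith
  · rw [hrank, Nat.cast_zero, AnalyticAt.analyticOrderAt_eq_zero]
    · rw [Finset.prod_ne_zero_iff]
      intro J hJ
      have hJ' := (Finset.mem_powersetCard.1 hJ).2
      have h2 : ((t : ℂ) + 1 - t) = 1 := by ring
      rw [h2]
      exact (hf J hJ').2.2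
    · refine Differentiable.analyticAt (Differentiable.fun_finsetProd fun J hJ => ?_) _
      have hJ' := (Finset.mem_powersetCard.1 hJ).2
      exact (hf J hJ').1.comp (differentiable_id.sub_const _)

end Pool.Agent.Q274.DC.F
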