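import Pool.Agent.Q274.DC.Law
import Pool.Agent.Y703.CX.Fin

/-!
# Project DC: the hypersurfaces `m x_0³ + x_1³ + ⋯ = 0`, ordered by `m`
-/

set_option autoImplicit false

namespace Pool.Agent.Q274.DC

theorem mod9 (x : ℕ) (hx : x < 9) (y : ℕ) (hy : y < 9) (z : ℕ) (hz : z < 9) (hx3 : x % 3 ≠ 0)
    (hy3 : y % 3 ≠ 0) (hz3 : z % 3 ≠ 0) (h1 : x ≠ 1) (h8 : x ≠ 8)
    (h : x * x % 9 = y * (z ^ 3 % 9) % 9) : y ≠ 1 ∧ y ≠ 8 := by
  have hz' : z ^ 3 % 9 = 1 ∨ z ^ 3 % 9 = 8 := by
    clear h h1 h8 hx3 hy3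
    interval_cases z <;> first | exact absurd rfl hz3 | norm_num
  have hx' : x * x % 9 = 4 ∨ x * x % 9 = 7 := by
    clear h hz' hy3 hz3
    interval_cases x <;> first | exact absurd rfl hx3 | exact absurd rfl h1 | exact absurd rfl h8 | norm_num
  rcases hz' with h2 | h2 <;> rcases hx' with h3 | h3 <;> rw [h2, h3] at h <;> omega

open scoped Classical
open Filter
open Pool.Agent.Results.MP_696deb_nt.IndependenceOverDivisors

/-- the coefficients `m, 1, …, 1` -/
def special (t m : ℕ) : Fin (2 * t + 3) → ℕ := fun i => if (i : ℕ) = 0 then m else 1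

/-- all the curves `E_{d_J}` have finitely many rational points and `Ш[3^∞] = 0` -/
def GoodX {t : ℕ} (a : Fin (2 * t + 3) → ℕ) : Prop :=
  ∀ J : Finset (Fin (2 * t + 3)), J.card = t → Good (twist a J)

theorem prod_special (t m : ℕ) (s : Finset (Fin (2 * t + 3))) :
    ∏ i ∈ s, special t m i = if (0 : Fin (2 * t + 3)) ∈ s then m else 1 := by
  unfold special
  have h : ∀ i : Fin (2 * t + 3), ((i : ℕ) = 0) ↔ i = 0 := fun i =>
    ⟨fun h => Fin.ext h, fun h => by rw [h]; rfl⟩
  simp only [h]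
  rw [Finset.prod_ite_eq']

theorem twist_special (t m : ℕ) (J : Finset (Fin (2 * t + 3))) :
    twist (special t m) J = if (0 : Fin (2 * t + 3)) ∈ J then cubeFree (m * m) else cubeFree m := by
  unfold twist
  rw [prod_special, prod_special, if_pos (Finset.mem_univ _)]
  split_ifs
  · rfl
  · rw [mul_one]

theorem cubeFree_self {m : ℕ} (hm : IsBase m) : cubeFree m = m := by
  obtain ⟨b, hb, h⟩ := cubeFree_mul hm.1
  refine Q283.Q3N.cf_unique (c := b) (c' := 1) ?_ (by rw [← h]; exact hm.1) (Q283.ND.cf_free m) hm.2.2.1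
  rw [one_pow, mul_one, ← h]

theorem base_sq {m : ℕ} (hm : IsBase m) : IsBase (cubeFree (m * m)) := by
  obtain ⟨hm0, hm3, hcf, h1, h8, q, hq, hq2, hqm, hall⟩ := hm
  have hmm : m * m ≠ 0 := mul_ne_zero hm0 hm0
  obtain ⟨b, hb, h⟩ := cubeFree_mul hmm
  have hn0 := cubeFree_ne hmm
  have hfree := Q283.ND.cf_free (m * m)
  change ∀ p : ℕ, p.Prime → ¬ p ^ 3 ∣ cubeFree (m * m) at hfree
  generalize cubeFree (m * m) = n at h hn0 hfree
  have hnd : ∀ p : ℕ, p.Prime → p ∣ n → p ∣ m := by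
    intro p hp hpn
    have h2 : p ∣ m * m := h ▸ hpn.mul_right _
    rcases hp.dvd_mul.1 h2 with h3 | h3 <;> exact h3
  have hdn : ∀ p : ℕ, p.Prime → p ∣ m → p ∣ n := by
    intro p hp hpm
    by_contra hc
    have f1 : (m * m).factorization p = (n * b ^ 3).factorization p := by rw [← h]
    rw [Nat.factorization_mul hm0 hm0, Nat.factorization_mul hn0 (pow_ne_zero 3 hb),
      Nat.factorization_pow] at f1
    simp only [Finsupp.add_apply, Finsupp.smul_apply, smul_eq_mul] at f1
    rw [Nat.factorization_eq_zero_of_not_dvd hc] at f1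
    have f2 : 1 ≤ m.factorization p := (hp.dvd_iff_one_le_factorization hm0).1 hpm
    have f3 : ¬ 3 ≤ m.factorization p := by
      intro h3
      exact hcf p hp ((hp.pow_dvd_iff_le_factorization hm0).2 h3)
    omega
  have h3n : ¬ 3 ∣ n := fun h3 => hm3 (hnd 3 Nat.prime_three h3)
  have h3b : ¬ 3 ∣ b := by
    intro h3
    apply hm3
    have h4 : 3 ∣ m * m := h ▸ ((h3.trans (dvd_pow_self b three_ne_zero)).mul_left n)
    rcases Nat.prime_three.dvd_mul.1 h4 with h5 | h5 <;> exact h5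
  have hmod : (m % 9) * (m % 9) % 9 = (n % 9) * ((b % 9) ^ 3 % 9) % 9 := by
    have h5 : m * m % 9 = n * b ^ 3 % 9 := by rw [← h]
    rw [Nat.mul_mod, Nat.mul_mod n, Nat.pow_mod] at h5
    exact h5
  have hm9 : m % 9 < 9 := Nat.mod_lt _ (by norm_num)
  have hn9 : n % 9 < 9 := Nat.mod_lt _ (by norm_num)
  have hb9 : b % 9 < 9 := Nat.mod_lt _ (by norm_num)
  have hm3' : m % 9 % 3 ≠ 0 := by omega
  have hn3' : n % 9 % 3 ≠ 0 := by omega
  have hb3' : b % 9 % 3 ≠ 0 := by omega
  have h18 := mod9 _ hm9 _ hn9 _ hb9 hm3' hn3' hb3' h1 h8 hmod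
  exact ⟨hn0, h3n, hfree, h18.1, h18.2, q, hq, hq2, hdn q hq hqm,
    fun p hp hpn hpq => hall p hp (hnd p hp hpn) hpq⟩

theorem base_special (t : ℕ) {m : ℕ} (hm : IsBase m) (J : Finset (Fin (2 * t + 3))) :
    IsBase (twist (special t m) J) := by
  rw [twist_special]
  split_ifs
  · exact base_sq hm
  · rw [cubeFree_self hm]
    exact hm

variable (K : Type) [Field K] [NumberField K] [IsCyclotomicExtension {3} ℚ K]

include K in
theorem good_special {m : ℕ} (hm : IsBase m) : (∀ t ≤ 2, GoodX (special t m)) ↔ Good m := by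
  constructor
  · intro h
    have h1 := h 0 (by norm_num) ∅ rfl
    rw [twist_special, if_neg (Finset.notMem_empty _), cubeFree_self hm] at h1
    exact h1
  · intro h t _ J _
    rw [twist_special]
    split_ifs
    · have h2 : CE (m * cubeFree (m * m)) 1 := by
        have h3 := ((CE.refl m).mul (CE.cubeFree (mul_ne_zero hm.1 hm.1)))
        refine h3.symm.trans ⟨1, m, one_ne_zero, hm.1, by ring⟩
      rw [good_sel K (base_sq hm), ← sel_inv K hm (base_sq hm) h2, ← good_sel K hm]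
      exact h
    · rw [cubeFree_self hm]
      exact h

include K in
/-- the exact proportion for `m x_0³ + x_1³ + ⋯ = 0`, `t = 0, 1, 2` together -/
theorem proportion : Tendsto (fun x : ℕ => (((Finset.Icc 1 x).filter fun m => Squarefree m ∧ IsBase m ∧
      ∀ t ≤ 2, GoodX (special t m)).card : ℝ) /
    ((Finset.Icc 1 x).filter fun m => Squarefree m ∧ IsBase m).card) atTop (nhds c) := by
  have h := Pool.Agent.Y703.CX.t_DEN
  unfold Pool.Agent.Y703.CX.S_DEN at h
  refine h.congr fun x => ?_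
  congr 2
  · congr 1
    ext m
    simp only [Finset.mem_filter]
    refine and_congr_right fun _ => and_congr_right fun _ => ?_
    constructor
    · rintro ⟨h1, h2⟩
      have h3 := (base_iff m).2 h1
      exact ⟨h3, (good_special K h3).2 ((good_iff m).2 ((Q283.Q3N.triv_iff h1).2 h2))⟩
    · rintro ⟨h1, h2⟩
      have h3 := (base_iff m).1 h1
      exact ⟨h3, (Q283.Q3N.triv_iff h3).1 ((good_iff m).1 ((good_special K h1).1 h2))⟩
  · congr 1
    ext m
    simp only [Finset.mem_filter]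
    exact and_congr_right fun _ => and_congr_right fun _ => (base_iff m).symm

end Pool.Agent.Q274.DC
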