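import Pool.Agent.Q274.DC.Spec
import Pool.Agent.Q68.DC.CHJ
import Pool.Agent.Q149.DC.LIF
import Pool.Agent.Q26.DC.STI
import Pool.Agent.Q121.DC.FRO

/-!
# Project DC: assembly of the second part

Joint work: helper68 (`CHJ`), helper149 (`LIF`), helper26 (`STI`), helper121 (`FRO`).
-/

set_option autoImplicit false

namespace Pool.Agent.Q274.DC

theorem fro : S_FRO := Pool.Agent.Q121.DC.fro Pool.Agent.Q153.DC.one Pool.Agent.Q109.DC.chi
  Pool.Agent.Q68.DC.aff_eq (Pool.Agent.Q149.DC.lif Pool.Agent.Q68.DC.chj Pool.Agent.Q68.DC.aff_eq)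
  Pool.Agent.Q26.DC.sti

end Pool.Agent.Q274.DC
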