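import Pool.Agent.Q274.DC.Def

/-!
# Project DC: the laws for families of diagonal cubic hypersurfaces
-/

set_option autoImplicit false

open scoped Classical

namespace Pool.Agent.Q274.DC

open Filter
open Pool.Agent.Results.MP_696deb_nt.IndependenceOverDivisors

section basics

variable {m n : ℕ}

noncomputable instance (X : Fin m → Family n) : Fintype (Twists X) := by
  unfold Twists
  infer_instance

/-- the constant of a twist -/
def bas (X : Fin m → Family n) (p : Twists X) : ℕ := base (X p.1.1) p.1.2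

/-- the exponents of a twist -/
def exf (X : Fin m → Family n) (p : Twists X) : Fin n → ZMod 3 := expo (X p.1.1) p.1.2

/-- the cube-free number of the twist at `d` -/
def val (X : Fin m → Family n) (d : Fin n → ℕ) (p : Twists X) : ℕ :=
  twist (coeff (X p.1.1) d) p.1.2

/-- `ρ` is a system of representatives of the twists up to inversion -/
def Represents {M : ℕ} (X : Fin m → Family n) (ρ : Fin M → Twists X) : Prop :=
  (∀ j l, j ≠ l → ¬ Related (bas X (ρ l)) (exf X (ρ l)) (bas X (ρ j)) (exf X (ρ j))) ∧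
    ∀ p, ∃ j, Related (bas X p) (exf X p) (bas X (ρ j)) (exf X (ρ j))

/-- the share of the tuples of divisors with the property `P` -/
noncomputable def part (a : Fin n → ℕ) (D : ℕ) (P : (Fin n → ℕ) → Prop) : ℝ :=
  (((tuples a D).filter P).card : ℝ) / (tuples a D).card

theorem Related.refl (N : ℕ) (e : Fin n → ZMod 3) : Related N e N e := Or.inl ⟨rfl, rfl⟩

theorem part_eq {M : ℕ} {N : Fin M → ℕ} {e : Fin M → Fin n → ZMod 3} {a : Fin n → ℕ}
    {D : ℕ} {P : (Fin n → ℕ) → Prop} {Q : (Fin M → ℕ) → Prop}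
    (h : ∀ d ∈ tuples a D, (P d ↔ Q (values N e d))) : part a D P = share N e a D Q := by
  unfold part share
  congr 2
  exact Pool.Agent.XLK.fcc fun d hd => h d hd

theorem tuple_ne {a d : Fin n → ℕ} {D : ℕ} (hd : d ∈ tuples a D) (i : Fin n) : d i ≠ 0 := by
  intro h
  have h1 := tuple_dvd hd i
  rw [h] at h1
  have h2 : splitPart D ≠ 0 := (Q283.NJ.sp_sqf D).ne_zero
  exact pow_ne_zero 2 h2 (zero_dvd_iff.1 h1)

end basics

section one

variable (K : Type) [Field K] [NumberField K] [IsCyclotomicExtension {3} ℚ K]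

theorem good_sel {n : ℕ} (hn : IsBase n) : Good n ↔ (Sel K n).ncard = 3 := by
  obtain ⟨r, h1, -, h3, -⟩ := (result K).1 n hn
  rw [← h3, h1]
  constructor
  · rintro rfl
    norm_num
  · intro h
    have h4 : 3 ^ (2 * r + 1) = 3 ^ (2 * 0 + 1) := by rw [h]; norm_num
    exact pw_inj h4

/-- inverse twists have Selmer groups of the same order -/
theorem sel_inv {n n' : ℕ} (hn : IsBase n) (hn' : IsBase n') (h : CE (n * n') 1) :
    (Sel K n).ncard = (Sel K n').ncard := by
  obtain ⟨u, v, hu, hv, h⟩ := h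
  rw [one_mul] at h
  have h1 : u ∣ v := by
    rw [← Nat.pow_dvd_pow_iff (three_ne_zero)]
    exact ⟨n * n', by rw [← h]; ring⟩
  obtain ⟨w, rfl⟩ := h1
  have h2 : n * n' = w ^ 3 := by
    have h3 : u ^ 3 * (n * n') = u ^ 3 * w ^ 3 := by
      rw [mul_comm, h]; ring
    exact Nat.eq_of_mul_eq_mul_left (Nat.pos_of_ne_zero (pow_ne_zero 3 hu)) h3
  exact (result K).2.1 n n' w hn hn' h2

variable {m n : ℕ} (X : Fin m → Family n)

theorem val_eq (hc : ∀ k i, (X k).c i ≠ 0) {d : Fin n → ℕ} (hd : ∀ i, d i ≠ 0) (p : Twists X) :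
    val X d p = cubeFree (bas X p * form (exf X p) d) := twist_coeff _ (hc _) _ hd

theorem val_base (hc : ∀ k i, (X k).c i ≠ 0) (hB : ∀ p, IsBase (bas X p)) {a d : Fin n → ℕ} {D : ℕ}
    (ha : ∀ p : Twists X, bas X p * form (exf X p) a % 9 ≠ 1 ∧ bas X p * form (exf X p) a % 9 ≠ 8)
    (hd : d ∈ tuples a D) (p : Twists X) : IsBase (val X d p) := by
  rw [val_eq X hc (tuple_ne hd)]
  exact (base_iff _).2 (cls_of ((base_iff _).1 (hB p)) (ha p).1 (ha p).2 hd)

theorem sel_rel (hc : ∀ k i, (X k).c i ≠ 0) (hB : ∀ p, IsBase (bas X p)) {a d : Fin n → ℕ} {D : ℕ}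
    (ha : ∀ p : Twists X, bas X p * form (exf X p) a % 9 ≠ 1 ∧ bas X p * form (exf X p) a % 9 ≠ 8)
    (hd : d ∈ tuples a D) {p p' : Twists X}
    (h : Related (bas X p) (exf X p) (bas X p') (exf X p')) :
    (Sel K (val X d p)).ncard = (Sel K (val X d p')).ncard := by
  have hd0 := tuple_ne hd
  rcases h with ⟨h1, h2⟩ | ⟨h1, b, h2⟩
  · rw [val_eq X hc hd0, val_eq X hc hd0, h1, h2]
  · refine sel_inv K (val_base X hc hB ha hd p) (val_base X hc hB ha hd p') ?_
    rw [val_eq X hc hd0, val_eq X hc hd0]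
    have hb0 : ∀ p, bas X p ≠ 0 := fun p => (hB p).1
    have hx : ∀ p, bas X p * form (exf X p) d ≠ 0 := fun p => mul_ne_zero (hb0 p) (form_ne _ hd0)
    refine ((CE.cubeFree (hx p)).symm.mul (CE.cubeFree (hx p')).symm).trans ?_
    have h3 : CE (form (exf X p) d * form (exf X p') d) 1 := by
      have h4 := (form_add (exf X p) (exf X p') hd0).symm
      rw [h1, neg_add_cancel, form_zero] at h4
      rw [h1]
      exact h4
    have h5 : CE (bas X p * bas X p') 1 := by
      have hb : b ≠ 0 := by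
        rintro rfl
        rw [zero_pow three_ne_zero] at h2
        exact mul_ne_zero (hb0 p') (hb0 p) h2
      exact ⟨1, b, one_ne_zero, hb, by rw [one_pow, mul_one, one_mul, mul_comm]; exact h2⟩
    have h6 := h5.mul h3
    rw [mul_one] at h6
    have h7 : bas X p * form (exf X p) d * (bas X p' * form (exf X p') d) =
        bas X p * bas X p' * (form (exf X p) d * form (exf X p') d) := by ring
    rw [h7]
    exact h6

end one

theorem law_X (K : Type) [Field K] [NumberField K] [IsCyclotomicExtension {3} ℚ K] :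
    ∃ S : ℕ → Prop, Tendsto (fun x : ℕ => (count S x : ℝ) / x) atTop (nhds 1) ∧
      Tendsto (fun x : ℕ => (count (fun D => Split D ∧ S D) x : ℝ) / count Split x) atTop (nhds 1) ∧
      ∀ (m n M : ℕ) (X : Fin m → Family n) (ρ : Fin M → Twists X), (∀ k i, (X k).c i ≠ 0) →
      (∀ p, IsBase (bas X p)) → (∀ p, exf X p ≠ 0) → Represents X ρ →
      ∀ ε : ℝ, 0 < ε → ∃ D₀ : ℕ, ∀ D : ℕ, D₀ ≤ D → S D → ∀ a : Fin n → ℕ,
        (∀ p : Twists X, bas X p * form (exf X p) a % 9 ≠ 1 ∧ bas X p * form (exf X p) a % 9 ≠ 8) →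
        (tuples a D).Nonempty →
        (∀ T : Set (Fin M → ℕ), |part a D (fun d => ∃ r ∈ T, ∀ (p : Twists X) (j : Fin M),
            Related (bas X p) (exf X p) (bas X (ρ j)) (exf X (ρ j)) →
              (Sel K (val X d p)).ncard = 3 ^ (2 * r j + 1)) - ∑' r : T, ∏ j, law (r.1 j)| ≤ ε) ∧
        |part a D (fun d => ∀ p : Twists X, Good (val X d p)) - c ^ M| ≤ ε ∧
        ∀ p : Twists X, (∑ d ∈ tuples a D, (rank (val X d p) : ℝ)) / (tuples a D).card < 0.92 := by
  obtain ⟨S, hS1, hS2, hmain⟩ := (result K).2.2.2.2.2.1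
  refine ⟨S, hS1, hS2, fun m n M X ρ hc hB hE hR ε hε => ?_⟩
  have hU : Unrelated (fun j => bas X (ρ j)) (fun j => exf X (ρ j)) := by
    refine ⟨fun j => hE _, fun j l hjl => ?_⟩
    have h := hR.1 j l hjl
    unfold Related at h
    push Not at h
    refine ⟨fun h1 => h.1 h1.1 h1.2, ?_⟩
    rintro ⟨h1, b, h2⟩
    exact h.2 h1 b h2
  obtain ⟨D₁, h1⟩ := hmain M n _ _ (fun j => hB (ρ j)) hU ε hε
  have hs : ∀ p : Twists X, ∃ D₂ : ℕ, ∀ D : ℕ, D₂ ≤ D → S D → ∀ a : Fin n → ℕ,
      (bas X p * form (exf X p) a % 9 ≠ 1 ∧ bas X p * form (exf X p) a % 9 ≠ 8) →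
        (tuples a D).Nonempty → mean (bas X p) (exf X p) a D (fun n => (rank n : ℝ)) < 0.92 := by
    intro p
    have hU1 : Unrelated (fun _ : Fin 1 => bas X p) (fun _ : Fin 1 => exf X p) :=
      ⟨fun _ => hE p, fun j l hjl => absurd (Subsingleton.elim j l) hjl⟩
    obtain ⟨D₂, h2⟩ := hmain 1 n _ _ (fun _ => hB p) hU1 1 one_pos
    refine ⟨D₂, fun D hD hSD a ha hne => ?_⟩
    exact ((h2 D hD hSD a (fun _ => ha) hne).2.2.2.2.2 0).2
  choose D₂ h2 using hs
  refine ⟨max D₁ (Finset.univ.sup D₂), fun D hD hSD a ha hne => ⟨fun T => ?_, ?_, fun p => ?_⟩⟩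
  · have h3 := (h1 D ((le_max_left _ _).trans hD) hSD a (fun j => ha (ρ j)) hne).1 T
    rw [part_eq (N := fun j => bas X (ρ j)) (e := fun j => exf X (ρ j))
      (Q := fun v => ∃ r ∈ T, ∀ j, (Sel K (v j)).ncard = 3 ^ (2 * r j + 1))]
    · exact h3
    · intro d hd
      have hv : ∀ j, values (fun j => bas X (ρ j)) (fun j => exf X (ρ j)) d j = val X d (ρ j) :=
        fun j => (val_eq X hc (tuple_ne hd) (ρ j)).symm
      constructor
      · rintro ⟨r, hr, h⟩
        refine ⟨r, hr, fun j => ?_⟩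
        rw [hv]
        exact h (ρ j) j (Related.refl _ _)
      · rintro ⟨r, hr, h⟩
        refine ⟨r, hr, fun p j hpj => ?_⟩
        rw [sel_rel K X hc hB ha hd hpj, ← hv]
        exact h j
  · have h3 := (h1 D ((le_max_left _ _).trans hD) hSD a (fun j => ha (ρ j)) hne).2.1 Finset.univ
    rw [Finset.card_univ, Fintype.card_fin, Nat.sub_self, pow_zero, mul_one] at h3
    rw [part_eq (N := fun j => bas X (ρ j)) (e := fun j => exf X (ρ j))
      (Q := fun v => ∀ j, (Good (v j) ↔ j ∈ (Finset.univ : Finset (Fin M))))]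
    · exact h3
    · intro d hd
      have hv : ∀ j, values (fun j => bas X (ρ j)) (fun j => exf X (ρ j)) d j = val X d (ρ j) :=
        fun j => (val_eq X hc (tuple_ne hd) (ρ j)).symm
      constructor
      · intro h j
        rw [hv]
        exact ⟨fun _ => Finset.mem_univ j, fun _ => h (ρ j)⟩
      · intro h p
        obtain ⟨j, hj⟩ := hR.2 p
        have h4 := (h j).2 (Finset.mem_univ j)
        rw [hv] at h4
        rw [good_sel K (val_base X hc hB ha hd p), sel_rel K X hc hB ha hd hj,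
          ← good_sel K (val_base X hc hB ha hd (ρ j))]
        exact h4
  · have h4 : D₂ p ≤ D := (Finset.le_sup (Finset.mem_univ p)).trans ((le_max_right _ _).trans hD)
    have h5 := h2 p D h4 hSD a (ha p) hne
    unfold mean at h5
    refine lt_of_eq_of_lt ?_ h5
    congr 1
    exact Finset.sum_congr rfl fun d hd => by rw [val_eq X hc (tuple_ne hd)]

end Pool.Agent.Q274.DC
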