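import Pool.Agent.Q274.DC.Def
import Pool.Agent.Q153.DC.ONE
import Pool.Agent.Q109.DC.CHI
import Pool.Agent.Q109.DC.SUM
import Pool.Agent.Q68.DC.AFF
import Pool.Agent.Q150.DC.CONE
import Pool.Agent.Q26.DC.PTS

/-!
# Project DC: the points of diagonal cubic hypersurfaces over finite fields

Joint work: helper153 (`ONE`), helper109 (`CHI`, `SUM`), helper68 (`AFF`), helper150 (`CON`), helper26 (`PTS`).
-/

set_option autoImplicit false

open scoped Classical

namespace Pool.Agent.Q274.DC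

open Pool.Agent.Results.MP_696deb_nt.IndependenceOverDivisors

theorem pts : S_PTS := Pool.Agent.Q26.DC.pts Pool.Agent.Q153.DC.one Pool.Agent.Q109.DC.chi
  Pool.Agent.Q68.DC.aff_eq Pool.Agent.Q150.DC.con Pool.Agent.Q109.DC.sum

/-- the number of points of `y² + D y = x³` over the finite field `F` -/
noncomputable def curvePoints (F : Type) [Field F] (D : ℕ) : ℤ :=
  1 + (Nat.card {P : F × F // P.2 ^ 2 + (D : F) * P.2 = P.1 ^ 3} : ℤ)

/-- the number of solutions of `∑ a_i x_i³ = 0` in the finite field `F` -/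
noncomputable def solutions (F : Type) [Field F] {n : ℕ} (a : Fin n → ℕ) : ℤ :=
  (Nat.card {x : Fin n → F // ∑ i, (a i : F) * x i ^ 3 = 0} : ℤ)

theorem aff_scale {F : Type} [Field F] (D b : F) (hb : b ≠ 0) : aff (D * b ^ 3) = aff D := by
  unfold aff
  congr 1
  refine Nat.card_congr ⟨fun P => ⟨(P.1.1 / b ^ 2, P.1.2 / b ^ 3), ?_⟩,
    fun P => ⟨(P.1.1 * b ^ 2, P.1.2 * b ^ 3), ?_⟩, fun P => ?_, fun P => ?_⟩
  · have h := P.2
    simp only
    have h1 : (P.1.2 / b ^ 3) ^ 2 + D * (P.1.2 / b ^ 3) = (P.1.2 ^ 2 + D * b ^ 3 * P.1.2) / b ^ 6 := by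
      field_simp
    rw [h1, h]
    field_simp
  · have h := P.2
    simp only
    have h1 : (P.1.2 * b ^ 3) ^ 2 + D * b ^ 3 * (P.1.2 * b ^ 3) = (P.1.2 ^ 2 + D * P.1.2) * b ^ 6 := by
      ring
    rw [h1, h]
    ring
  · apply Subtype.ext
    simp only
    rw [div_mul_cancel₀ _ (pow_ne_zero 2 hb), div_mul_cancel₀ _ (pow_ne_zero 3 hb)]
  · apply Subtype.ext
    simp only
    rw [mul_div_cancel_right₀ _ (pow_ne_zero 2 hb), mul_div_cancel_right₀ _ (pow_ne_zero 3 hb)]

theorem aff_twist {F : Type} [Field F] {n : ℕ} (a : Fin n → ℕ) (ha : ∀ i, (a i : F) ≠ 0)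
    (J : Finset (Fin n)) : aff (dJ (fun i => (a i : F)) J) = curvePoints F (twist a J) - 1 := by
  have hn : (∏ i, a i) * ∏ i ∈ J, a i ≠ 0 := by
    have h0 : ∀ i, a i ≠ 0 := fun i h => ha i (by rw [h]; simp)
    exact mul_ne_zero (Finset.prod_ne_zero_iff.2 fun i _ => h0 i)
      (Finset.prod_ne_zero_iff.2 fun i _ => h0 i)
  obtain ⟨b, hb, h⟩ := cubeFree_mul hn
  have hd : dJ (fun i => (a i : F)) J = ((twist a J : ℕ) : F) * (b : F) ^ 3 := by
    unfold dJ twist
    have h1 : (((∏ i, a i) * ∏ i ∈ J, a i : ℕ) : F) = (∏ i, (a i : F)) * ∏ i ∈ J, (a i : F) := by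
      push_cast
      rfl
    rw [← h1]
    conv_lhs => rw [h]
    push_cast
    rfl
  have hb0 : (b : F) ≠ 0 := by
    intro h0
    rw [h0, zero_pow three_ne_zero, mul_zero] at hd
    unfold dJ at hd
    exact mul_ne_zero (Finset.prod_ne_zero_iff.2 fun i _ => ha i)
      (Finset.prod_ne_zero_iff.2 fun i _ => ha i) hd
  rw [hd, aff_scale _ _ hb0]
  unfold aff curvePoints
  ring

theorem count_X (F : Type) [Field F] [Fintype F] {t : ℕ} (ht : t ≤ 2) (a : Fin (2 * t + 3) → ℕ)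
    (ha : ∀ i, (a i : F) ≠ 0) :
    solutions F a = 1 + ((Fintype.card F : ℤ) - 1) * (∑ i ∈ Finset.range (2 * t + 2),
      (Fintype.card F : ℤ) ^ i + (Fintype.card F : ℤ) ^ t *
        ∑ J ∈ Finset.powersetCard t (Finset.univ : Finset (Fin (2 * t + 3))),
          (curvePoints F (twist a J) - ((Fintype.card F : ℤ) + 1))) := by
  have h := pts F t ht (fun i => (a i : F)) ha
  have h1 : solutions F a = cone fun i => (a i : F) := rfl
  rw [h1, h, mul_add, mul_geom_sum]
  have h2 : ∑ J ∈ Finset.powersetCard t (Finset.univ : Finset (Fin (2 * t + 3))),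
      (aff (dJ (fun i => (a i : F)) J) - (Fintype.card F : ℤ)) =
      ∑ J ∈ Finset.powersetCard t (Finset.univ : Finset (Fin (2 * t + 3))),
          (curvePoints F (twist a J) - ((Fintype.card F : ℤ) + 1)) := by
    refine Finset.sum_congr rfl fun J _ => ?_
    rw [aff_twist a ha J]
    ring
  rw [h2]
  ring

end Pool.Agent.Q274.DC
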