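import Pool.Agent.Q274.DC.Stm
import Pool.Agent.Y145.DW.HD

/-!
# Project DC (helper274), second part: the points of `y² + D y = x³` over all extensions of `F_p`

We want the eigenvalues of Frobenius: two numbers `α, β` with `α β = p` such that for all extensions `F` of
`F_p` of degree `r` the affine curve `y² + D y = x³` (`D` in `F_p`, not `0`) has `p ^ r - α ^ r - β ^ r` points
over `F`. Tool: the Hasse-Davenport relation `Pool.Agent.Y145.DW.hasse_davenport`
(`psi ψ E x = ψ (Algebra.trace F E x)`, lemma `psi_apply`).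
-/

set_option autoImplicit false

open scoped Classical

namespace Pool.Agent.Q274.DC

/-- JOB CHJ (`theorem chj : S_CHJ`). The formula of `S_CHI` holds for EVERY character of order three.
Proof. As for `Pool.Agent.Q109.DC.chi` (see its file; perhaps its proof already gives it): `u` a cube `≠ 0`:
`χ u = 1`, three roots; `u` not a cube: no root and `χ u ≠ 1` (else `χ` is trivial on a generator), `(χ u)³ = 1`.
That `card F = 1` modulo `3` follows from the existence of `χ` (its order `3` divides `card F - 1`). -/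
def S_CHJ : Prop := ∀ (F : Type) [Field F] [Fintype F] (χ : MulChar F ℂ), χ ≠ 1 → χ ^ 3 = 1 →
  ∀ u : F, (Nat.card {x : F // x ^ 3 = u} : ℂ) = 1 + χ u + (χ u) ^ 2

/-- JOB LIF (`theorem lif : S_CHJ → S_AFF → S_LIF`). Lifting the point count from `k` to `F` by
Hasse-Davenport. `k` a finite field with `q` elements, `χ` a character of order three of `k`, `ψ` a
nontrivial additive character, `g g'` the Gauss sums of `χ, χ²`; `r` the degree of `F` over `k`, `D ≠ 0` in `k`.
Proof. `χ_F = χ ∘ norm` is a character of order three of `F` (the norm is surjective on finite fields: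
`FiniteField.norm_surjective` or similar; as `MulChar` define it by composition), `ψ_F = ψ ∘ trace` is
nontrivial, hence primitive (`AddChar.IsPrimitive` of a nontrivial character of a field,
`AddChar.IsPrimitive.of_ne_one`). Hasse-Davenport: `gaussSum χ_F ψ_F = (-1)^(r-1) g^r`, and the same for
`χ²`, `g'`. `norm D = D ^ r`. `S_AFF` for `F`: `q^r (aff D - q^r) = χ(D^r)² (-1)^(3(r-1)) g^(3r) + χ(D^r)
(-1)^(3(r-1)) g'^(3r)`, and `(-1)^(3(r-1)) x^r = - (-x)^r`. -/
def S_LIF : Prop := ∀ (k : Type) [Field k] [Fintype k] (χ : MulChar k ℂ) (ψ : AddChar k ℂ), χ ≠ 1 →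
  χ ^ 3 = 1 → ψ ≠ 1 → ∀ (F : Type) [Field F] [Fintype F] [Algebra k F] (D : k), D ≠ 0 →
  (Fintype.card F : ℂ) = (Fintype.card k : ℂ) ^ Module.finrank k F ∧
  (Fintype.card F : ℂ) * ((aff (algebraMap k F D) : ℂ) - (Fintype.card F : ℂ)) =
    - (-((χ D) ^ 2 * gaussSum χ ψ ^ 3)) ^ Module.finrank k F
    - (-(χ D * gaussSum (χ ^ 2) ψ ^ 3)) ^ Module.finrank k F

/-- JOB STI (`theorem sti : S_STI`). The cubic Gauss sum of the field with `p²` elements, `p = 2` modulo `3`
(`p = 2` included), for the additive character `ψ₀ ∘ trace`, is `p`.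
Proof. `χ` is trivial on the elements `a ≠ 0` of `F_p` (`a` is a cube already in `F_p`, as
`3 ∤ p - 1`). Sum over the cosets of `F_pˣ` in `kˣ`, or simply multiply out:
`(p - 1) g = ∑_{a ∈ F_pˣ} ∑_x χ(x) ψ₀(tr x) = ∑_{a} ∑_x χ(a x) ψ₀(tr(a x)) = ∑_x χ(x) ∑_{a ≠ 0} ψ₀(a tr x)
= ∑_x χ(x) (p [tr x = 0] - 1) = p ∑_{tr x = 0} χ(x) - 0`. The elements with trace `0` are the multiples
`a y` (`a` in `F_p`) of one element `y ≠ 0`, `y^p = - y`; `y²` is fixed by Frobenius, so it is in `F_p`,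
`χ(y)² = χ(y²) = 1` and `χ(y)³ = 1`, so `χ(y) = 1`. So the sum is `p (p - 1)`. -/
def S_STI : Prop := ∀ (p : ℕ) [Fact p.Prime], p % 3 = 2 → ∀ (k : Type) [Field k] [Fintype k]
  [Algebra (ZMod p) k], Module.finrank (ZMod p) k = 2 → ∀ (χ : MulChar k ℂ) (ψ₀ : AddChar (ZMod p) ℂ),
  χ ≠ 1 → χ ^ 3 = 1 → ψ₀ ≠ 1 →
  ∑ x : k, χ x * ψ₀ (Algebra.trace (ZMod p) k x) = (p : ℂ)

/-- JOB FRO (`theorem fro : S_ONE → S_CHI → S_AFF → S_LIF → S_STI → S_FRO`). The eigenvalues of Frobenius.
Proof. `p = 3`: cubing is bijective on every `F`, so `aff = card F` by `S_ONE`; but `α β = p` and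
`α ^ r + β ^ r = 0` for all `r` is impossible, so `p ≠ 3` is assumed. `p = 1` modulo `3`: `χ` from `S_CHI` for
`ZMod p`, `ψ ≠ 1` any additive character, `α = - χ(D)² g³ / p`, `β = - χ(D) g'³ / p`; `g g' = p` (`S_AFF`),
`χ(D)³ = 1` give `α β = p`; `S_LIF`. `p = 2` modulo `3`: `α = i √p`, `β = - i √p`. Odd `r`:
`card F = p ^ r = 2` modulo `3`, `S_ONE`, and `α ^ r + β ^ r = 0`. Even `r = 2 s`: let `k` be a subfield of
`F` with `p²` elements (it exists as `2 ∣ r`; or embed `GaloisField p 2` in `F`), `χ` a character of order three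
of `k` (`S_CHI`, `p² = 1` modulo `3`), `ψ = ψ₀ ∘ trace`, so `g = g' = p` by `S_STI` (for `χ` and `χ²`), and
`χ(D) = 1` as `D` is a cube in `ZMod p`. `S_LIF` with `F` over `k` of degree `s`:
`p^(2s) (aff D - p^(2s)) = - 2 (-p³)^s`, so `aff D - p^(2s) = - 2 (-p)^s = - α^(2s) - β^(2s)`. -/
def S_FRO : Prop := ∀ (p : ℕ) [Fact p.Prime], p ≠ 3 → ∀ D : ZMod p, D ≠ 0 → ∃ α β : ℂ, α * β = p ∧
  ∀ (F : Type) [Field F] [Fintype F] [Algebra (ZMod p) F],
    (aff (algebraMap (ZMod p) F D) : ℂ) = (Fintype.card F : ℂ) - α ^ Module.finrank (ZMod p) F -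
      β ^ Module.finrank (ZMod p) F

end Pool.Agent.Q274.DC
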