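import Pool.Agent.Q274.DC.Lfun
import Pool.Agent.Q274.DC.Pts
import Pool.Agent.Q274.DC.Stm2

/-!
# Project DC: the eigenvalues of Frobenius on the middle cohomology
-/

set_option autoImplicit false

open scoped Classical

namespace Pool.Agent.Q274.DC

open Pool.Agent.Results.MP_696deb_nt.IndependenceOverDivisors

/-- `A` is the multiset of the eigenvalues of Frobenius at `p` on the middle cohomology `H^(2t+1)` of
`∑ a_i x_i³ = 0`: for all extensions `F` of `F_p`, of degree `r`, with `q = p ^ r` elements, the hypersurface has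
`1 + q + ⋯ + q^(2t+1) - ∑_{α ∈ A} α ^ r` points over `F` (the cone over it has `1 + (q - 1)` times this
number of points). -/
def IsSpectrum {t : ℕ} (a : Fin (2 * t + 3) → ℕ) (p : ℕ) [Fact p.Prime] (A : Multiset ℂ) : Prop :=
  ∀ (F : Type) [Field F] [Fintype F] [Algebra (ZMod p) F],
    (solutions F a : ℂ) = 1 + ((Fintype.card F : ℂ) - 1) *
      (∑ i ∈ Finset.range (2 * t + 2), (Fintype.card F : ℂ) ^ i -
        (A.map fun α => α ^ Module.finrank (ZMod p) F).sum)

theorem factor_ab {p : ℕ} [Fact p.Prime] {D : ℕ} (h3 : ¬ p ∣ 3 * D) {α β : ℂ} (h1 : α * β = p)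
    (h2 : (aff ((D : ℕ) : ZMod p) : ℂ) = (p : ℂ) - α - β) (t : ℕ) (s : ℂ) :
    factor D p (s - t) =
      (1 - ((p : ℂ) ^ t * α) * (p : ℂ) ^ (-s))⁻¹ * (1 - ((p : ℂ) ^ t * β) * (p : ℂ) ^ (-s))⁻¹ := by
  have hp : p.Prime := Fact.out
  have hp0 : (p : ℂ) ≠ 0 := by exact_mod_cast hp.ne_zero
  unfold factor
  rw [if_neg h3, ← mul_inv]
  congr 1
  have h4 : ((Nat.card {P : ZMod p × ZMod p // P.2 ^ 2 + (D : ZMod p) * P.2 = P.1 ^ 3} : ℕ) : ℂ) =
      (p : ℂ) - α - β := by
    rw [← h2]
    unfold aff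
    push_cast
    rfl
  rw [h4]
  have h5 : (p : ℂ) ^ (-(s - t)) = (p : ℂ) ^ t * (p : ℂ) ^ (-s) := by
    rw [← Complex.cpow_natCast, ← Complex.cpow_add _ _ hp0]
    congr 1
    ring
  have h6 : (p : ℂ) ^ (1 - 2 * (s - t)) = p * ((p : ℂ) ^ t * (p : ℂ) ^ (-s)) ^ 2 := by
    rw [← h5, ← Complex.cpow_nat_mul]
    nth_rewrite 2 [← Complex.cpow_one (p : ℂ)]
    rw [← Complex.cpow_add _ _ hp0]
    congr 1
    push_cast
    ring
  rw [h5, h6, ← h1]
  ring

theorem spectrum (hF : S_FRO) {p : ℕ} [Fact p.Prime] {t : ℕ} (ht : t ≤ 2) (a : Fin (2 * t + 3) → ℕ)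
    (ha : ¬ p ∣ 3 * ∏ i, a i) : ∃ A : Multiset ℂ, A.card = 2 * Nat.choose (2 * t + 3) t ∧
      IsSpectrum a p A ∧ ∀ s : ℂ,
        ∏ J ∈ Finset.powersetCard t (Finset.univ : Finset (Fin (2 * t + 3))),
          factor (twist a J) p (s - t) = (A.map fun α => (1 - α * (p : ℂ) ^ (-s))⁻¹).prod := by
  have hp : p.Prime := Fact.out
  have hp3 : p ≠ 3 := by
    rintro rfl
    exact ha (dvd_mul_right 3 _)
  have hai : ∀ i, ¬ p ∣ a i := fun i h =>
    ha ((h.trans (Finset.dvd_prod_of_mem a (Finset.mem_univ i))).mul_left 3)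
  have ha0 : ∀ i, a i ≠ 0 := fun i h => hai i (by rw [h]; exact dvd_zero p)
  have htw : ∀ J : Finset (Fin (2 * t + 3)), ¬ p ∣ twist a J := by
    intro J h
    have hn : (∏ i, a i) * ∏ i ∈ J, a i ≠ 0 :=
      mul_ne_zero (Finset.prod_ne_zero_iff.2 fun i _ => ha0 i)
        (Finset.prod_ne_zero_iff.2 fun i _ => ha0 i)
    obtain ⟨b, hb, hb'⟩ := cubeFree_mul hn
    have h1 : p ∣ (∏ i, a i) * ∏ i ∈ J, a i := by
      rw [hb']
      exact h.mul_right _
    rcases hp.dvd_mul.1 h1 with h2 | h2 <;>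
    · obtain ⟨i, -, hi⟩ := (hp.prime.dvd_finsetProd_iff _).1 h2
      exact hai i hi
  have hD : ∀ J : Finset (Fin (2 * t + 3)), ((twist a J : ℕ) : ZMod p) ≠ 0 := fun J h =>
    htw J ((ZMod.natCast_eq_zero_iff _ _).1 h)
  choose α β hαβ hpt using fun J : Finset (Fin (2 * t + 3)) => hF p hp3 _ (hD J)
  have h1 : ∀ J, (aff ((twist a J : ℕ) : ZMod p) : ℂ) = (p : ℂ) - α J - β J := by
    intro J
    have h := hpt J (ZMod p)
    rw [Module.finrank_self, pow_one, pow_one, ZMod.card] at h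
    exact h
  refine ⟨(Finset.powersetCard t Finset.univ).val.bind fun J =>
    {(p : ℂ) ^ t * α J, (p : ℂ) ^ t * β J}, ?_, ?_, fun s => ?_⟩
  · rw [Multiset.card_bind]
    simp only [Function.comp_def, Multiset.card_pair, Multiset.map_const', Multiset.sum_replicate,
      Finset.card_val, Finset.card_powersetCard, Finset.card_univ, Fintype.card_fin, smul_eq_mul]
    ring
  · intro F _ _ _
    have hcard : Fintype.card F = p ^ Module.finrank (ZMod p) F := by
      have h := Module.card_eq_pow_finrank (K := ZMod p) (V := F)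
      rw [h, ZMod.card]
    have haF : ∀ i, ((a i : ℕ) : F) ≠ 0 := by
      intro i h
      have h2 : algebraMap (ZMod p) F ((a i : ℕ) : ZMod p) = 0 := by rw [map_natCast]; exact h
      rw [map_eq_zero] at h2
      exact hai i ((ZMod.natCast_eq_zero_iff _ _).1 h2)
    have h2 := congrArg (fun z : ℤ => (z : ℂ)) (count_X F ht a haF)
    push_cast at h2
    rw [h2]
    congr 2
    rw [sub_eq_add_neg]
    congr 1
    have h3 : ∀ J, (curvePoints F (twist a J) : ℂ) - ((Fintype.card F : ℂ) + 1) =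
        -(α J ^ Module.finrank (ZMod p) F + β J ^ Module.finrank (ZMod p) F) := by
      intro J
      have h4 := hpt J F
      rw [map_natCast] at h4
      have h5 : (curvePoints F (twist a J) : ℂ) = 1 + (aff ((twist a J : ℕ) : F) : ℂ) := by
        unfold curvePoints aff
        push_cast
        rfl
      rw [h5, h4]
      ring
    rw [Finset.sum_congr rfl fun J _ => h3 J, Finset.sum_neg_distrib, mul_neg, neg_inj,
      Multiset.map_bind, Multiset.sum_bind]
    simp only [Multiset.insert_eq_cons, Multiset.map_cons, Multiset.map_singleton, Multiset.sum_cons,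
      Multiset.sum_singleton]
    rw [Finset.mul_sum]
    show _ = ∑ J ∈ Finset.powersetCard t (Finset.univ : Finset (Fin (2 * t + 3))), _
    refine Finset.sum_congr rfl fun J _ => ?_
    rw [hcard]
    push_cast
    ring
  · rw [Multiset.map_bind, Multiset.prod_bind]
    simp only [Multiset.insert_eq_cons, Multiset.map_cons, Multiset.map_singleton, Multiset.prod_cons,
      Multiset.prod_singleton]
    show _ = ∏ J ∈ Finset.powersetCard t (Finset.univ : Finset (Fin (2 * t + 3))), _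
    refine Finset.prod_congr rfl fun J _ => ?_
    refine factor_ab ?_ (hαβ J) (h1 J) t s
    intro h
    rcases hp.dvd_mul.1 h with h2 | h2
    · exact hp3 ((Nat.prime_dvd_prime_iff_eq hp Nat.prime_three).1 h2)
    · exact htw J h2

end Pool.Agent.Q274.DC
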