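import Mathlib

/-!
# Project DC (helper274): diagonal cubic hypersurfaces of dimension `2 t + 1`, `t ≤ 2`, and cubic twists

Statements about points over finite fields. `n = 2 t + 3` variables, `t = 0, 1, 2`.
-/

set_option autoImplicit false

open scoped Classical

namespace Pool.Agent.Q274.DC

/-- number of solutions of `a_0 x_0³ + ⋯ = 0` in `F ^ n` (the affine cone) -/
noncomputable def cone {F : Type} [Field F] {n : ℕ} (a : Fin n → F) : ℤ :=
  (Nat.card {x : Fin n → F // ∑ i, a i * x i ^ 3 = 0} : ℤ)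

/-- number of solutions of `y² + D y = x³` in `F ^ 2` -/
noncomputable def aff {F : Type} [Field F] (D : F) : ℤ :=
  (Nat.card {P : F × F // P.2 ^ 2 + D * P.2 = P.1 ^ 3} : ℤ)

/-- the product of all `a_i` and of the `a_i` with `i` in `J` -/
def dJ {F : Type} [CommMonoid F] {n : ℕ} (a : Fin n → F) (J : Finset (Fin n)) : F :=
  (∏ i, a i) * ∏ i ∈ J, a i

/-- JOB ONE (`theorem one : S_ONE`). If cubing is bijective on `F` (number of elements not `1` modulo `3`),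
everything is trivial.
Proof. `q = card F`. `x ↦ x³` is injective: if `x³ = y³`, `y ≠ 0`, then `z = x / y` has `z³ = 1`,
`z ^ (q - 1) = 1`, and `3` is prime to `q - 1` unless `q = 1` modulo `3`, so `z = 1` (for `q = 0` modulo `3`
too). So cubing is a bijection; the cone is in bijection (cube the coordinates) with the solutions of
`∑ a_i u_i = 0`; as `a_0 ≠ 0` these are `q ^ (n - 1)` (`u_1, ..., u_(n-1)` are free). The curve has `q`
points: `y` is free, `x` is the cube root of `y² + D y`. So both sides are `q ^ (2 t + 2)`. -/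
def S_ONE : Prop := ∀ (F : Type) [Field F] [Fintype F] (t : ℕ), Fintype.card F % 3 ≠ 1 →
  ∀ a : Fin (2 * t + 3) → F, (∀ i, a i ≠ 0) →
    cone a = (Fintype.card F : ℤ) ^ (2 * t + 2) ∧ ∀ D : F, aff D = (Fintype.card F : ℤ)

/-- JOB CHI (`theorem chi : S_CHI`). If `card F = 1` modulo `3` there is a multiplicative character `χ` of
order three with complex values, and the number of cube roots of `u` is `1 + χ u + (χ u)²` for all `u`.
Proof. `MulChar.exists_mulChar_orderOf` (order `3` divides `card F - 1`, a primitive third root of unity in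
`ℂ`). `u = 0`: only the root `0`, `χ 0 = 0`. `u ≠ 0` a cube `v³`: `χ u = χ v ^ 3 = 1`, and the roots are
`v, v w, v w²` with `w` a primitive third root of unity of `F` (it exists since `3` divides `card F - 1`,
`Fˣ` cyclic), three different ones. `u ≠ 0` not a cube: no root; let `g` be a generator of `Fˣ`,
`χ g ≠ 1` (otherwise `χ = 1`) is a primitive third root of unity `z`; `u = g ^ k` with `3 ∤ k` (otherwise a
cube), `χ u = z ^ k ≠ 1` has `(χ u)³ = 1`, so `1 + χ u + (χ u)² = 0`. -/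
def S_CHI : Prop := ∀ (F : Type) [Field F] [Fintype F], Fintype.card F % 3 = 1 →
  ∃ χ : MulChar F ℂ, χ ≠ 1 ∧ χ ^ 3 = 1 ∧
    ∀ u : F, (Nat.card {x : F // x ^ 3 = u} : ℂ) = 1 + χ u + (χ u) ^ 2

/-- JOB AFF (`theorem aff_eq : S_AFF`, no hypotheses). For `χ` as in `S_CHI` and a primitive (or just
nontrivial) additive character `ψ`, with `g = gaussSum χ ψ`, `g' = gaussSum (χ ^ 2) ψ`:
`g g' = q` and `q (aff D - q) = χ(D)² g³ + χ(D) g'³` for `D ≠ 0`.
Proof. `χ² = χ⁻¹`, `χ (-1) = χ ((-1)³) = χ(-1)³ = 1`. `gaussSum_mul_gaussSum_eq_card` and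
`gaussSum χ⁻¹ ψ⁻¹ = χ⁻¹(-1) gaussSum χ⁻¹ ψ` give `g g' = q`.
`aff D = ∑_y #{x : x³ = y² + D y} = q + ∑_y χ(y) χ(y + D) + ∑_y χ²(y) χ²(y + D)`; with `y = - D z` the first
sum is `χ(-D) χ(D) ∑_z χ(z) χ(1 - z) = χ(D)² jacobiSum χ χ`, the second is
`χ²(D)² jacobiSum (χ²) (χ²) = χ(D) jacobiSum (χ²) (χ²)` (as `χ⁴ = χ`). By `jacobiSum_mul_nontrivial`
(`gaussSum (χ φ) ψ * jacobiSum χ φ = gaussSum χ ψ * gaussSum φ ψ`, `χ φ ≠ 1`): `g' J(χ, χ) = g²`, so
`q J(χ, χ) = g³`, and `g J(χ², χ²) = g'²`, so `q J(χ², χ²) = g'³`. -/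
def S_AFF : Prop := ∀ (F : Type) [Field F] [Fintype F] (χ : MulChar F ℂ) (ψ : AddChar F ℂ), χ ≠ 1 →
  χ ^ 3 = 1 → (∀ u : F, (Nat.card {x : F // x ^ 3 = u} : ℂ) = 1 + χ u + (χ u) ^ 2) → ψ.IsPrimitive →
  gaussSum χ ψ * gaussSum (χ ^ 2) ψ = (Fintype.card F : ℂ) ∧
  ∀ D : F, D ≠ 0 → (Fintype.card F : ℂ) * ((aff D : ℂ) - (Fintype.card F : ℂ)) =
    (χ D) ^ 2 * gaussSum χ ψ ^ 3 + χ D * gaussSum (χ ^ 2) ψ ^ 3

/-- JOB CON (`theorem con : S_CON`, no hypotheses). The number of points of the cone by Gauss sums, as a sum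
over all subsets `J` (`J` = the places where the character `χ²` is taken).
Proof. `n = 2 t + 3`, `q N = ∑_x ∑_s ψ(s ∑ a_i x_i³) = ∑_s ∏_i S(s a_i)`, `S(u) = ∑_x ψ(u x³)`
(`AddChar.sum_mulShift`, `Finset.prod_univ_sum`/`Fintype.piFinset` or `Finset.prod_sum`). `S(0) = q`. For
`u ≠ 0`: `S(u) = ∑_v #{x : x³ = v} ψ(u v) = ∑_v (1 + χ v + χ² v) ψ(u v) = 0 + χ(u)² g + χ(u) g'`
(`gaussSum_mulShift`, `χ⁻¹ = χ²`). So `q N = q ^ n + ∑_(s ≠ 0) ∏_i (χ(s a_i)² g + χ(s a_i) g')`. Expand by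
`Finset.prod_add` (or `Fintype.prod_add`): the term of `J` (where the second summand is taken) is
`g ^ (n - |J|) g' ^ |J| χ(∏_(i ∉ J) a_i² ∏_(i ∈ J) a_i) ∑_(s ≠ 0) χ(s) ^ (2 (n - |J|) + |J|)`. The last sum
is `q - 1` if `3 ∣ 2 n - |J|`, i.e. `|J| = 2 n = t` modulo `3`, and `0` otherwise
(`MulChar.sum_eq_zero_of_ne_one` for `χ` or `χ²`). Finally `∏_(i ∉ J) a_i² ∏_(i ∈ J) a_i` times
`∏_(i ∈ J) a_i³` is `(∏ a_i)² ∏_(i ∈ J) a_i² = (dJ a J)²`, up to a cube, so `χ` of it is `χ(dJ a J)²`. -/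
def S_CON : Prop := ∀ (F : Type) [Field F] [Fintype F] (χ : MulChar F ℂ) (ψ : AddChar F ℂ), χ ≠ 1 →
  χ ^ 3 = 1 → (∀ u : F, (Nat.card {x : F // x ^ 3 = u} : ℂ) = 1 + χ u + (χ u) ^ 2) → ψ.IsPrimitive →
  ∀ (t : ℕ) (a : Fin (2 * t + 3) → F), (∀ i, a i ≠ 0) →
  (Fintype.card F : ℂ) * (cone a : ℂ) = (Fintype.card F : ℂ) ^ (2 * t + 3) +
    ((Fintype.card F : ℂ) - 1) * ∑ J ∈ (Finset.univ : Finset (Finset (Fin (2 * t + 3)))).filter
      (fun J => J.card % 3 = t % 3),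
      gaussSum χ ψ ^ (2 * t + 3 - J.card) * gaussSum (χ ^ 2) ψ ^ J.card * χ (dJ a J) ^ 2

/-- JOB SUM (`theorem sum : S_SUM`, no hypotheses; pure finite algebra). For `t ≤ 2` the subsets `J` of
`2 t + 3` elements with `|J| = t` modulo `3` are those with `|J| = t` and their complements (`|J| = t + 3`):
`t + 6 > 2 t + 3`. With `g g' = q`: for `|J| = t` the term is `g ^ (t + 3) g' ^ t χ(d_J)² = q ^ t g³ χ(d_J)²`.
For `|J| = t + 3`, `J' = Jᶜ`, the term is `g ^ t g' ^ (t + 3) χ(d_J)² = q ^ t g'³ χ(d_J)²`, and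
`d_J ^ 2 d_J' ^ 2 = (∏ a_i) ^ 6` and hence `χ(d_J)² = χ(d_J')⁻² = χ(d_J')` (cubes are killed). Reindex by
complement. -/
def S_SUM : Prop := ∀ (F : Type) [Field F] [Fintype F] (χ : MulChar F ℂ), χ ^ 3 = 1 →
  ∀ (t : ℕ), t ≤ 2 → ∀ (a : Fin (2 * t + 3) → F), (∀ i, a i ≠ 0) → ∀ q g g' : ℂ, g * g' = q →
  ∑ J ∈ (Finset.univ : Finset (Finset (Fin (2 * t + 3)))).filter (fun J => J.card % 3 = t % 3),
      g ^ (2 * t + 3 - J.card) * g' ^ J.card * χ (dJ a J) ^ 2 =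
  q ^ t * ∑ J ∈ Finset.powersetCard t (Finset.univ : Finset (Fin (2 * t + 3))),
      (χ (dJ a J) ^ 2 * g ^ 3 + χ (dJ a J) * g' ^ 3)

/-- JOB PTS (`theorem pts : S_ONE → S_CHI → S_AFF → S_CON → S_SUM → S_PTS`). The points of the cone. Proof. If
`card F ≠ 1` modulo `3` use `S_ONE` (all summands are `0`). Otherwise take `χ` from `S_CHI` and a primitive
additive character (`AddChar.FiniteField.primitiveChar` with values in a cyclotomic field, or
`AddChar.exists_primitive...` for `ℂ`; e.g. `AddChar.FiniteField.primitiveChar_to_Complex`), combine, divide by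
`q ≠ 0` and cast back to `ℤ`. -/
def S_PTS : Prop := ∀ (F : Type) [Field F] [Fintype F] (t : ℕ), t ≤ 2 →
  ∀ a : Fin (2 * t + 3) → F, (∀ i, a i ≠ 0) →
    cone a = (Fintype.card F : ℤ) ^ (2 * t + 2) + ((Fintype.card F : ℤ) - 1) *
      (Fintype.card F : ℤ) ^ t * ∑ J ∈ Finset.powersetCard t (Finset.univ : Finset (Fin (2 * t + 3))),
        (aff (dJ a J) - (Fintype.card F : ℤ))

end Pool.Agent.Q274.DC
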